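import Mathlib

set_option autoImplicit false

/-!
# Substituting poles into templates

A *pole* is a graph `A` on `V` with five distinct port vertices `t 0, …, t 4`.  A *template* has
real vertices `R`, blocks `B` and edges between real vertices and ports of blocks.
-/

namespace Run7.h236.Rot

open Sum

variable {R B V : Type}

/-- nodes of a template: real vertices and ports of blocks -/
abbrev Nd (R B : Type) : Type := R ⊕ (B × Fin 5)

/-- the place of a template node in the composite -/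
def tau (t : Fin 5 → V) : Nd R B → R ⊕ (B × V)
  | inl i => inl i
  | inr (j, p) => inr (j, t p)

theorem tau_inj {t : Fin 5 → V} (ht : Function.Injective t) :
    Function.Injective (tau (R := R) (B := B) t) := by
  rintro (i | ⟨j, p⟩) (i' | ⟨j', p'⟩) h
  · simpa [tau] using h
  · simp [tau] at h
  · simp [tau] at h
  · simp only [tau, Sum.inr.injEq, Prod.mk.injEq] at h
    rw [h.1, ht h.2]

/-- adjacency in the template -/
def TAdj {m : ℕ} (e : Fin m → Nd R B × Nd R B) (a b : Nd R B) : Prop :=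
  ∃ k, e k = (a, b) ∨ e k = (b, a)

instance {m : ℕ} (e : Fin m → Nd R B × Nd R B) [DecidableEq R] [DecidableEq B] (a b : Nd R B) :
    Decidable (TAdj e a b) := by
  unfold TAdj; infer_instance

theorem TAdj.symm {m : ℕ} {e : Fin m → Nd R B × Nd R B} {a b : Nd R B} (h : TAdj e a b) :
    TAdj e b a := by
  obtain ⟨k, h | h⟩ := h
  · exact ⟨k, Or.inr h⟩
  · exact ⟨k, Or.inl h⟩

/-- adjacency in the composite: every block is replaced by a copy of the pole -/
def comp {m : ℕ} (A : V → V → Prop) (t : Fin 5 → V) (e : Fin m → Nd R B × Nd R B) :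
    (R ⊕ (B × V)) → (R ⊕ (B × V)) → Prop := fun x y =>
  (∃ j v w, x = inr (j, v) ∧ y = inr (j, w) ∧ A v w) ∨
    ∃ a b, TAdj e a b ∧ x = tau t a ∧ y = tau t b

/-- the number of edges leaving a set -/
noncomputable def cr (A : V → V → Prop) (S : V → Bool) : ℕ :=
  Nat.card {p : V × V // S p.1 = true ∧ S p.2 = false ∧ A p.1 p.2}

/-- the number of template edges leaving a set of nodes -/
def wt {m : ℕ} (e : Fin m → Nd R B × Nd R B) (s : Nd R B → Bool) : ℕ :=
  (Finset.univ.filter fun k => s (e k).1 ≠ s (e k).2).card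

/-- the conditions on a template used for every composite -/
structure TOK {m q : ℕ} [Fintype R] [Fintype B] [DecidableEq R] [DecidableEq B]
    (e : Fin m → Nd R B × Nd R B) (o : Fin q → Nd R B) : Prop where
  einj1 : ∀ k k', (e k).1 = (e k').1 → (e k).2 = (e k').2 → k = k'
  einj2 : ∀ k k', (e k).1 = (e k').2 → (e k).2 = (e k').1 → k = k'
  oinj : ∀ p p', o p = o p' → p = p'
  noself : ∀ (j : B) (p p' : Fin 5), ¬ TAdj e (inr (j, p)) (inr (j, p'))
  noloop : ∀ i : R, ¬ TAdj e (inl i) (inl i)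
  uniq : ∀ (j : B) (p : Fin 5) (b : Nd R B), TAdj e (inr (j, p)) b →
    ∀ b', TAdj e (inr (j, p)) b' → b = b'
  pdeg : ∀ (j : B) (p : Fin 5), (Finset.univ.filter fun b => TAdj e (inr (j, p)) b).card +
    (Finset.univ.filter fun k => o k = inr (j, p)).card = 1
  rdeg : ∀ i : R, (Finset.univ.filter fun b => TAdj e (inl i) b).card +
    (Finset.univ.filter fun k => o k = inl i).card = 3
  rport : ∀ (i : R) (j : B) (p : Fin 5), TAdj e (inl i) (inr (j, p)) → p = 0
  rtri : ∀ (i : R) (a : Nd R B), TAdj e (inl i) a → ∀ b, TAdj e (inl i) b → ¬ TAdj e a b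
  rquad : ∀ (i : R) (a : Nd R B), TAdj e (inl i) a → ∀ b, TAdj e (inl i) b → a ≠ b →
    ∀ d, TAdj e a d → TAdj e b d → d = inl i
  jquad : ∀ (i j : B) (p p' q q' : Fin 5), p ≠ p' → TAdj e (inr (i, p)) (inr (j, q)) →
    TAdj e (inr (i, p')) (inr (j, q')) →
    (p, p') ∈ [((1 : Fin 5), (2 : Fin 5)), (2, 1), (3, 4), (4, 3)] ∨
      (q, q') ∈ [((1 : Fin 5), (2 : Fin 5)), (2, 1), (3, 4), (4, 3)]

section

variable {m : ℕ} {A : V → V → Prop} {t : Fin 5 → V} {e : Fin m → Nd R B × Nd R B}

theorem comp_symm (hA : ∀ x y, A x y → A y x) : ∀ x y, comp A t e x y → comp A t e y x := by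
  rintro x y (⟨j, v, w, hx, hy, h⟩ | ⟨a, b, h, hx, hy⟩)
  · exact Or.inl ⟨j, w, v, hy, hx, hA _ _ h⟩
  · exact Or.inr ⟨b, a, h.symm, hy, hx⟩

theorem comp_irrefl (ht : Function.Injective t) (hA : ∀ x, ¬ A x x)
    (h1 : ∀ (j : B) (p p' : Fin 5), ¬ TAdj e (inr (j, p)) (inr (j, p')))
    (h2 : ∀ i : R, ¬ TAdj e (inl i) (inl i)) : ∀ x, ¬ comp A t e x x := by
  rintro x (⟨j, v, w, hx, hy, h⟩ | ⟨a, b, h, hx, hy⟩)
  · rw [hx] at hy
    simp only [Sum.inr.injEq, Prod.mk.injEq, true_and] at hy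
    rw [hy] at h
    exact hA _ h
  · have : a = b := tau_inj ht (hx.symm.trans hy)
    subst this
    rcases a with i | ⟨j, p⟩
    · exact h2 _ h
    · exact h1 _ _ _ h

theorem comp_inl (i : R) (y : R ⊕ (B × V)) :
    comp A t e (inl i) y ↔ ∃ b, TAdj e (inl i) b ∧ y = tau t b := by
  constructor
  · rintro (⟨j, v, w, hx, hy, h⟩ | ⟨a, b, h, hx, hy⟩)
    · simp at hx
    · rcases a with i' | ⟨j, p⟩
      · simp only [tau, Sum.inl.injEq] at hx
        subst hx
        exact ⟨b, h, hy⟩
      · simp [tau] at hx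
  · rintro ⟨b, h, hy⟩
    exact Or.inr ⟨inl i, b, h, rfl, hy⟩

theorem comp_inr (j : B) (v : V) (y : R ⊕ (B × V)) :
    comp A t e (inr (j, v)) y ↔ (∃ w, A v w ∧ y = inr (j, w)) ∨
      ∃ p b, t p = v ∧ TAdj e (inr (j, p)) b ∧ y = tau t b := by
  constructor
  · rintro (⟨j', v', w, hx, hy, h⟩ | ⟨a, b, h, hx, hy⟩)
    · simp only [Sum.inr.injEq, Prod.mk.injEq] at hx
      obtain ⟨rfl, rfl⟩ := hx
      exact Or.inl ⟨w, h, hy⟩
    · rcases a with i' | ⟨j', p⟩
      · simp [tau] at hx
      · simp only [tau, Sum.inr.injEq, Prod.mk.injEq] at hx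
        obtain ⟨rfl, rfl⟩ := hx
        exact Or.inr ⟨p, b, rfl, h, hy⟩
  · rintro (⟨w, h, hy⟩ | ⟨p, b, rfl, h, hy⟩)
    · exact Or.inl ⟨j, v, w, rfl, hy, h⟩
    · exact Or.inr ⟨inr (j, p), b, h, rfl, hy⟩

/-- degrees of real vertices -/
theorem deg_inl (ht : Function.Injective t) (i : R) :
    Nat.card {y // comp A t e (inl i) y} = Nat.card {b // TAdj e (inl i) b} := by
  symm
  refine Nat.card_congr (Equiv.ofBijective
    (fun b => ⟨tau t b.1, (comp_inl i _).mpr ⟨b.1, b.2, rfl⟩⟩) ⟨?_, ?_⟩)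
  · rintro ⟨b, hb⟩ ⟨b', hb'⟩ h
    simp only [Subtype.mk.injEq] at h
    exact Subtype.ext (tau_inj ht h)
  · rintro ⟨y, hy⟩
    obtain ⟨b, hb, rfl⟩ := (comp_inl i _).mp hy
    exact ⟨⟨b, hb⟩, rfl⟩

/-- degrees of block vertices -/
theorem deg_inr [Finite R] [Finite B] [Finite V] (ht : Function.Injective t)
    (h1 : ∀ (j : B) (p p' : Fin 5), ¬ TAdj e (inr (j, p)) (inr (j, p'))) (j : B) (v : V) :
    Nat.card {y // comp A t e (inr (j, v)) y} =
      Nat.card {w // A v w} + Nat.card {b // ∃ p, t p = v ∧ TAdj e (inr (j, p)) b} := by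
  rw [← Nat.card_sum]
  symm
  refine Nat.card_congr (Equiv.ofBijective
    (fun z => match z with
      | inl w => ⟨inr (j, w.1), (comp_inr j v _).mpr (Or.inl ⟨w.1, w.2, rfl⟩)⟩
      | inr b => ⟨tau t b.1, (comp_inr j v _).mpr (Or.inr (by
          obtain ⟨p, hp, hb⟩ := b.2
          exact ⟨p, b.1, hp, hb, rfl⟩))⟩) ⟨?_, ?_⟩)
  · rintro (⟨w, hw⟩ | ⟨b, hb⟩) (⟨w', hw'⟩ | ⟨b', hb'⟩) h
    · simp only [Subtype.mk.injEq, Sum.inr.injEq, Prod.mk.injEq, true_and] at h
      simp only [h]
    · simp only [Subtype.mk.injEq] at h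
      exfalso
      obtain ⟨p, hp, hb⟩ := hb'
      rcases b' with i | ⟨j', p'⟩
      · simp [tau] at h
      · simp only [tau, Sum.inr.injEq, Prod.mk.injEq] at h
        rw [← h.1] at hb
        exact h1 _ _ _ hb
    · simp only [Subtype.mk.injEq] at h
      exfalso
      obtain ⟨p, hp, hb⟩ := hb
      rcases b with i | ⟨j', p'⟩
      · simp [tau] at h
      · simp only [tau, Sum.inr.injEq, Prod.mk.injEq] at h
        rw [h.1] at hb
        exact h1 _ _ _ hb
    · simp only [Subtype.mk.injEq] at h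
      have := tau_inj ht h
      subst this
      rfl
  · rintro ⟨y, hy⟩
    rcases (comp_inr j v _).mp hy with ⟨w, hw, rfl⟩ | ⟨p, b, hp, hb, rfl⟩
    · exact ⟨inl ⟨w, hw⟩, rfl⟩
    · exact ⟨inr ⟨b, p, hp, hb⟩, rfl⟩

end

section degree

variable {m q : ℕ} [Fintype R] [Fintype B] [DecidableEq R] [DecidableEq B] [Finite V]
  {A : V → V → Prop} {t : Fin 5 → V} {e : Fin m → Nd R B × Nd R B} {o : Fin q → Nd R B}

theorem deg_comp (T : TOK e o) (ht : Function.Injective t)
    (hd : ∀ v, Nat.card {w // A v w} + Nat.card {p // t p = v} = 3) (x : R ⊕ (B × V)) :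
    Nat.card {y // comp A t e x y} + Nat.card {k // tau t (o k) = x} = 3 := by
  classical
  rcases x with i | ⟨j, v⟩
  · rw [deg_inl ht, ← T.rdeg i]
    congr 1
    · rw [Nat.card_eq_fintype_card, Fintype.card_subtype]
    · rw [Nat.card_eq_fintype_card, Fintype.card_subtype]
      congr 1
      ext k
      simp only [Finset.mem_filter, Finset.mem_univ, true_and]
      constructor
      · intro h
        exact tau_inj ht (h.trans rfl)
      · intro h
        rw [h]
        rfl
  · rw [deg_inr ht T.noself, add_assoc, ← hd v]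
    congr 1
    by_cases hv : ∃ p, t p = v
    · obtain ⟨p, rfl⟩ := hv
      have e1 : Nat.card {p' // t p' = t p} = 1 := by
        rw [Nat.card_eq_one_iff_unique]
        refine ⟨⟨?_⟩, ⟨⟨p, rfl⟩⟩⟩
        rintro ⟨a, ha⟩ ⟨b, hb⟩
        exact Subtype.ext (ht (ha.trans hb.symm))
      rw [e1, ← T.pdeg j p]
      congr 1
      · rw [Nat.card_eq_fintype_card, Fintype.card_subtype]
        congr 1
        ext b
        simp only [Finset.mem_filter, Finset.mem_univ, true_and]
        constructor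
        · rintro ⟨p', h, h'⟩
          rwa [← ht h]
        · intro h
          exact ⟨p, rfl, h⟩
      · rw [Nat.card_eq_fintype_card, Fintype.card_subtype]
        congr 1
        ext k
        simp only [Finset.mem_filter, Finset.mem_univ, true_and]
        constructor
        · intro h
          exact tau_inj ht (h.trans rfl)
        · intro h
          rw [h]
          rfl
    · push Not at hv
      have e1 : Nat.card {b // ∃ p, t p = v ∧ TAdj e (inr (j, p)) b} = 0 := by
        rw [Nat.card_eq_zero]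
        left
        refine ⟨?_⟩
        rintro ⟨b, p, hp, -⟩
        exact hv p hp
      have e2 : Nat.card {p // t p = v} = 0 := by
        rw [Nat.card_eq_zero]
        left
        refine ⟨?_⟩
        rintro ⟨p, hp⟩
        exact hv p hp
      have e3 : Nat.card {k // tau t (o k) = inr (j, v)} = 0 := by
        rw [Nat.card_eq_zero]
        left
        refine ⟨?_⟩
        rintro ⟨k, hk⟩
        rcases ho : o k with i | ⟨j', p⟩
        · rw [ho] at hk
          simp [tau] at hk
        · rw [ho] at hk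
          simp only [tau, Sum.inr.injEq, Prod.mk.injEq] at hk
          exact hv p hk.2
      rw [e1, e2, e3]

/-- the cut inequality -/
theorem cr_comp (T : TOK e o) (ht : Function.Injective t) (S : R ⊕ (B × V) → Bool) :
    (∑ j : B, cr A (fun v => S (inr (j, v)))) + wt e (fun a => S (tau t a)) ≤
      cr (comp A t e) S := by
  classical
  unfold cr wt
  rw [← Nat.card_sigma, ← Fintype.card_subtype, ← Nat.card_eq_fintype_card, ← Nat.card_sum]
  let F : ((Σ j : B, {p : V × V // S (inr (j, p.1)) = true ∧ S (inr (j, p.2)) = false ∧ A p.1 p.2}) ⊕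
      {k : Fin m // S (tau t (e k).1) ≠ S (tau t (e k).2)}) →
      {p : (R ⊕ (B × V)) × (R ⊕ (B × V)) // S p.1 = true ∧ S p.2 = false ∧ comp A t e p.1 p.2} :=
    fun z => match z with
      | inl ⟨j, p⟩ => ⟨(inr (j, p.1.1), inr (j, p.1.2)), p.2.1, p.2.2.1,
          Or.inl ⟨j, _, _, rfl, rfl, p.2.2.2⟩⟩
      | inr k => if h : S (tau t (e k.1).1) = true then
          ⟨(tau t (e k.1).1, tau t (e k.1).2), h, by
            have := k.2
            rw [h] at this
            simpa using this.symm, Or.inr ⟨_, _, ⟨k.1, Or.inl rfl⟩, rfl, rfl⟩⟩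
        else ⟨(tau t (e k.1).2, tau t (e k.1).1), by
            have := k.2
            simp only [Bool.not_eq_true] at h
            rw [h] at this
            simpa using this.symm, by simpa using h, Or.inr ⟨_, _, ⟨k.1, Or.inr rfl⟩, rfl, rfl⟩⟩
  have hFk : ∀ k, ((F (inr k)).1 = (tau t (e k.1).1, tau t (e k.1).2)) ∨
      ((F (inr k)).1 = (tau t (e k.1).2, tau t (e k.1).1)) := by
    intro k
    by_cases h : S (tau t (e k.1).1) = true
    · left
      simp only [F, h, dite_true]
    · right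
      simp only [F, h, dite_false]
      rfl
  have hsep : ∀ j (p : {p : V × V // S (inr (j, p.1)) = true ∧ S (inr (j, p.2)) = false ∧ A p.1 p.2})
      k, F (inl ⟨j, p⟩) ≠ F (inr k) := by
    intro j p k h
    have h1 : (F (inr k)).1 = (inr (j, p.1.1), inr (j, p.1.2)) := by rw [← h]
    rcases hFk k with h2 | h2
    · rw [h1] at h2
      simp only [Prod.mk.injEq] at h2
      have h3 : TAdj e (e k.1).1 (e k.1).2 := ⟨k.1, Or.inl rfl⟩
      rcases ha : (e k.1).1 with i | ⟨j', p'⟩
      · rw [ha] at h2; simp [tau] at h2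
      rcases hb : (e k.1).2 with i | ⟨j'', p''⟩
      · rw [hb] at h2; simp [tau] at h2
      rw [ha, hb] at h2 h3
      simp only [tau, Sum.inr.injEq, Prod.mk.injEq] at h2
      rw [← h2.1.1, ← h2.2.1] at h3
      exact T.noself _ _ _ h3
    · rw [h1] at h2
      simp only [Prod.mk.injEq] at h2
      have h3 : TAdj e (e k.1).2 (e k.1).1 := ⟨k.1, Or.inr rfl⟩
      rcases ha : (e k.1).1 with i | ⟨j', p'⟩
      · rw [ha] at h2; simp [tau] at h2
      rcases hb : (e k.1).2 with i | ⟨j'', p''⟩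
      · rw [hb] at h2; simp [tau] at h2
      rw [ha, hb] at h2 h3
      simp only [tau, Sum.inr.injEq, Prod.mk.injEq] at h2
      rw [← h2.1.1, ← h2.2.1] at h3
      exact T.noself _ _ _ h3
  refine Nat.card_le_card_of_injective F ?_
  rintro (⟨j, p⟩ | k) (⟨j', p'⟩ | k') h
  · have h1 := congrArg Subtype.val h
    simp only [F, Prod.mk.injEq, Sum.inr.injEq] at h1
    obtain ⟨⟨rfl, h2⟩, ⟨-, h3⟩⟩ := h1
    congr 2
    exact Subtype.ext (Prod.ext h2 h3)
  · exact absurd h (hsep _ _ _)
  · exact absurd h.symm (hsep _ _ _)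
  · congr 1
    apply Subtype.ext
    have h1 := congrArg Subtype.val h
    rcases hFk k with h2 | h2 <;> rcases hFk k' with h3 | h3 <;> rw [h2, h3] at h1 <;>
      simp only [Prod.mk.injEq] at h1
    · exact T.einj1 _ _ (tau_inj ht h1.1) (tau_inj ht h1.2)
    · exact T.einj2 _ _ (tau_inj ht h1.1) (tau_inj ht h1.2)
    · exact T.einj2 _ _ (tau_inj ht h1.2) (tau_inj ht h1.1)
    · exact T.einj1 _ _ (tau_inj ht h1.2) (tau_inj ht h1.1)

end degree

end Run7.h236.Rot
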