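import Pool.Agent.Run7.h236.Rot.A1

set_option autoImplicit false

/-! # Short cycles in composites -/

namespace Run7.h236.Rot

open Sum

variable {R B V : Type}

section

variable {m : ℕ} {A : V → V → Prop} {t : Fin 5 → V} {e : Fin m → Nd R B × Nd R B}

theorem comp_rr {j k : B} {v w : V} (h : comp (R := R) A t e (inr (j, v)) (inr (k, w))) :
    (j = k ∧ A v w) ∨ ∃ p q, t p = v ∧ t q = w ∧ TAdj e (inr (j, p)) (inr (k, q)) := by
  rcases (comp_inr j v _).mp h with ⟨w', hw, h'⟩ | ⟨p, b, hp, hb, h'⟩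
  · simp only [Sum.inr.injEq, Prod.mk.injEq] at h'
    obtain ⟨rfl, rfl⟩ := h'
    exact Or.inl ⟨rfl, hw⟩
  · rcases b with i | ⟨k', q⟩
    · simp [tau] at h'
    · simp only [tau, Sum.inr.injEq, Prod.mk.injEq] at h'
      obtain ⟨rfl, rfl⟩ := h'
      exact Or.inr ⟨p, q, hp, rfl, hb⟩

theorem comp_tau (ht : Function.Injective t) {a : Nd R B} {z : R ⊕ (B × V)}
    (h : comp A t e (tau t a) z) :
    (∃ j p v, a = inr (j, p) ∧ z = inr (j, v) ∧ A (t p) v) ∨ ∃ d, TAdj e a d ∧ z = tau t d := by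
  rcases a with i | ⟨j, p⟩
  · obtain ⟨b, hb, rfl⟩ := (comp_inl i z).mp h
    exact Or.inr ⟨b, hb, rfl⟩
  · rcases (comp_inr j (t p) _).mp h with ⟨w', hw, h'⟩ | ⟨p', b, hp, hb, h'⟩
    · exact Or.inl ⟨j, p, w', rfl, h', hw⟩
    · rw [ht hp] at hb
      exact Or.inr ⟨b, hb, h'⟩

theorem tau_eq_inr {a : Nd R B} {j : B} {v : V} (h : inr (j, v) = tau t a) :
    ∃ p, a = inr (j, p) ∧ v = t p := by
  rcases a with i | ⟨j', p⟩
  · simp [tau] at h
  · simp only [tau, Sum.inr.injEq, Prod.mk.injEq] at h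
    obtain ⟨rfl, rfl⟩ := h
    exact ⟨p, rfl, rfl⟩

end

section

variable {m q : ℕ} [Fintype R] [Fintype B] [DecidableEq R] [DecidableEq B]
  {A : V → V → Prop} {t : Fin 5 → V} {e : Fin m → Nd R B × Nd R B} {o : Fin q → Nd R B}

theorem tri_real (T : TOK e o) (ht : Function.Injective t) (hc : ∀ p, ¬ A (t 0) (t p))
    (i : R) (y z : R ⊕ (B × V)) (h1 : comp A t e (inl i) y) (h2 : comp A t e y z)
    (h3 : comp A t e (inl i) z) : False := by
  obtain ⟨a, ha, rfl⟩ := (comp_inl i y).mp h1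
  obtain ⟨b, hb, rfl⟩ := (comp_inl i z).mp h3
  rcases comp_tau ht h2 with ⟨j, p, v, rfl, h, h'⟩ | ⟨d, hd, h⟩
  · obtain ⟨p', rfl, rfl⟩ := tau_eq_inr h.symm
    rw [T.rport i j p ha] at h'
    exact hc p' h'
  · rw [← tau_inj ht h] at hd
    exact T.rtri i a ha b hb hd

theorem tri_comp (T : TOK e o) (ht : Function.Injective t) (hs : ∀ x y, A x y → A y x)
    (hi : ∀ x, ¬ A x x) (hc : ∀ p, ¬ A (t 0) (t p))
    (h3 : ∀ x y z, A x y → A y z → A z x → False) (x y z : R ⊕ (B × V))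
    (hxy : comp A t e x y) (hyz : comp A t e y z) (hzx : comp A t e z x) : False := by
  have sy := comp_symm (R := R) (B := B) (t := t) (e := e) hs
  have ir := comp_irrefl (R := R) (B := B) (t := t) (e := e) ht hi T.noself T.noloop
  rcases x with i | ⟨j1, v1⟩
  · exact tri_real T ht hc i y z hxy hyz (sy _ _ hzx)
  rcases y with i | ⟨j2, v2⟩
  · exact tri_real T ht hc i z _ hyz hzx (sy _ _ hxy)
  rcases z with i | ⟨j3, v3⟩
  · exact tri_real T ht hc i _ _ hzx hxy (sy _ _ hyz)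
  have JJ : ∀ {j k l : B} {u v w : V} {p q q' r : Fin 5}, t p = u → t q = v → t q' = v → t r = w →
      TAdj e (inr (j, p)) (inr (k, q)) → TAdj e (inr (k, q')) (inr (l, r)) → j = l ∧ u = w := by
    intro j k l u v w p q q' r hp hq hq' hr h h'
    have : q = q' := ht (hq.trans hq'.symm)
    subst this
    have := T.uniq _ _ _ h.symm _ h'
    simp only [Sum.inr.injEq, Prod.mk.injEq] at this
    obtain ⟨rfl, rfl⟩ := this
    exact ⟨rfl, hp.symm.trans hr⟩
  rcases comp_rr hxy with ⟨a1, a2⟩ | ⟨p1, q1, a1, a2, a3⟩ <;>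
  rcases comp_rr hyz with ⟨b1, b2⟩ | ⟨p2, q2, b1, b2, b3⟩ <;>
  rcases comp_rr hzx with ⟨c1, c2⟩ | ⟨p3, q3, c1, c2, c3⟩
  · exact h3 _ _ _ a2 b2 c2
  · subst a1 b1
    exact T.noself _ _ _ c3
  · subst a1 c1
    exact T.noself _ _ _ b3
  · obtain ⟨h1, h2⟩ := JJ b1 b2 c1 c2 b3 c3
    subst h1 h2
    exact ir _ hxy
  · subst b1 c1
    exact T.noself _ _ _ a3
  · obtain ⟨h1, h2⟩ := JJ c1 c2 a1 a2 c3 a3
    subst h1 h2
    exact ir _ hyz
  · obtain ⟨h1, h2⟩ := JJ a1 a2 b1 b2 a3 b3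
    subst h1 h2
    exact ir _ hzx
  · obtain ⟨h1, h2⟩ := JJ a1 a2 b1 b2 a3 b3
    subst h1 h2
    exact ir _ hzx

theorem quad_real (T : TOK e o) (ht : Function.Injective t) (hc : ∀ p, ¬ A (t 0) (t p))
    (i : R) (y z w : R ⊕ (B × V)) (h1 : comp A t e (inl i) y) (h2 : comp A t e y z)
    (h3 : comp A t e w z) (h4 : comp A t e (inl i) w) (hz : inl i ≠ z) (hyw : y ≠ w) : False := by
  obtain ⟨a, ha, rfl⟩ := (comp_inl i y).mp h1
  obtain ⟨b, hb, rfl⟩ := (comp_inl i w).mp h4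
  have hab : a ≠ b := fun h => hyw (by rw [h])
  rcases comp_tau ht h2 with ⟨j, p, v, rfl, h, h'⟩ | ⟨d, hd, rfl⟩
  · have hp := T.rport i j p ha
    subst hp
    subst h
    rcases comp_tau ht h3 with ⟨j', p', v', rfl, k, k'⟩ | ⟨d', hd', k⟩
    · have hp := T.rport i j' p' hb
      subst hp
      simp only [Sum.inr.injEq, Prod.mk.injEq] at k
      apply hab
      rw [k.1]
    · obtain ⟨p', rfl, rfl⟩ := tau_eq_inr k
      exact hc p' h'
  · rcases comp_tau ht h3 with ⟨j', p', v', rfl, k, k'⟩ | ⟨d', hd', k⟩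
    · have hp := T.rport i j' p' hb
      subst hp
      obtain ⟨p', rfl, rfl⟩ := tau_eq_inr k.symm
      exact hc p' k'
    · have := tau_inj ht k
      subst this
      apply hz
      rw [T.rquad i a ha b hb hab d hd hd']
      rfl

theorem quad_comp (T : TOK e o) (ht : Function.Injective t) (hs : ∀ x y, A x y → A y x)
    (hi : ∀ x, ¬ A x x) (hc : ∀ p, ¬ A (t 0) (t p)) (h12 : ¬ A (t 1) (t 2))
    (h34 : ¬ A (t 3) (t 4))
    (h4 : ∀ x y z w, x ≠ z → y ≠ w → A x y → A y z → A z w → A w x → False)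
    (x y z w : R ⊕ (B × V)) (hxz : x ≠ z) (hyw : y ≠ w)
    (hxy : comp A t e x y) (hyz : comp A t e y z) (hzw : comp A t e z w)
    (hwx : comp A t e w x) : False := by
  have sy := comp_symm (R := R) (B := B) (t := t) (e := e) hs
  rcases x with i | ⟨j1, v1⟩
  · exact quad_real T ht hc i y z w hxy hyz (sy _ _ hzw) (sy _ _ hwx) hxz hyw
  rcases y with i | ⟨j2, v2⟩
  · exact quad_real T ht hc i z w _ hyz hzw (sy _ _ hwx) (sy _ _ hxy) hyw hxz.symm
  rcases z with i | ⟨j3, v3⟩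
  · exact quad_real T ht hc i w _ _ hzw hwx (sy _ _ hxy) (sy _ _ hyz) hxz.symm hyw.symm
  rcases w with i | ⟨j4, v4⟩
  · exact quad_real T ht hc i _ _ _ hwx hxy (sy _ _ hyz) (sy _ _ hzw) hyw.symm hxz
  have JJ : ∀ {j k l : B} {u v w : V} {p q q' r : Fin 5}, t p = u → t q = v → t q' = v → t r = w →
      TAdj e (inr (j, p)) (inr (k, q)) → TAdj e (inr (k, q')) (inr (l, r)) →
      (inr (j, u) : R ⊕ (B × V)) = inr (l, w) := by
    intro j k l u v w p q q' r hp hq hq' hr h h'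
    have : q = q' := ht (hq.trans hq'.symm)
    subst this
    have := T.uniq _ _ _ h.symm _ h'
    simp only [Sum.inr.injEq, Prod.mk.injEq] at this
    obtain ⟨rfl, rfl⟩ := this
    rw [← hp, ← hr]
  have key : ∀ {i j : B} {p p' q q' : Fin 5}, TAdj e (inr (i, p)) (inr (j, q)) →
      TAdj e (inr (i, p')) (inr (j, q')) → A (t p) (t p') → A (t q) (t q') → False := by
    intro i j p p' q q' h h' ha hb
    have hne : p ≠ p' := by
      rintro rfl
      exact hi _ ha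
    have h21 : ¬ A (t 2) (t 1) := fun h => h12 (hs _ _ h)
    have h43 : ¬ A (t 4) (t 3) := fun h => h34 (hs _ _ h)
    rcases T.jquad i j p p' q q' hne h h' with h | h
    · simp only [List.mem_cons, Prod.mk.injEq, List.not_mem_nil, or_false] at h
      rcases h with ⟨rfl, rfl⟩ | ⟨rfl, rfl⟩ | ⟨rfl, rfl⟩ | ⟨rfl, rfl⟩
      · exact h12 ha
      · exact h21 ha
      · exact h34 ha
      · exact h43 ha
    · simp only [List.mem_cons, Prod.mk.injEq, List.not_mem_nil, or_false] at h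
      rcases h with ⟨rfl, rfl⟩ | ⟨rfl, rfl⟩ | ⟨rfl, rfl⟩ | ⟨rfl, rfl⟩
      · exact h12 hb
      · exact h21 hb
      · exact h34 hb
      · exact h43 hb
  rcases comp_rr hxy with ⟨a1, a2⟩ | ⟨p1, q1, a1, a2, a3⟩ <;>
  rcases comp_rr hyz with ⟨b1, b2⟩ | ⟨p2, q2, b1, b2, b3⟩
  · rcases comp_rr hzw with ⟨c1, c2⟩ | ⟨p3, q3, c1, c2, c3⟩ <;>
    rcases comp_rr hwx with ⟨d1, d2⟩ | ⟨p4, q4, d1, d2, d3⟩
    · subst a1 b1 c1
      exact h4 v1 v2 v3 v4 (fun h => hxz (by rw [h])) (fun h => hyw (by rw [h])) a2 b2 c2 d2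
    · subst a1 b1 c1
      exact T.noself _ _ _ d3
    · subst a1 b1 d1
      exact T.noself _ _ _ c3
    · exact hxz.symm (JJ c1 c2 d1 d2 c3 d3)
  · -- I J
    rcases comp_rr hzw with ⟨c1, c2⟩ | ⟨p3, q3, c1, c2, c3⟩
    · rcases comp_rr hwx with ⟨d1, d2⟩ | ⟨p4, q4, d1, d2, d3⟩
      · subst a1 c1 d1
        exact T.noself _ _ _ b3
      · -- x~y internal, y~z junction, z~w internal, w~x junction
        subst a1 c1 b1 b2 d1 d2
        exact key b3 d3.symm (hs _ _ a2) c2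
    · exact hyw (JJ b1 b2 c1 c2 b3 c3)
  · -- J I
    rcases comp_rr hwx with ⟨d1, d2⟩ | ⟨p4, q4, d1, d2, d3⟩
    · rcases comp_rr hzw with ⟨c1, c2⟩ | ⟨p3, q3, c1, c2, c3⟩
      · subst b1 c1 d1
        exact T.noself _ _ _ a3
      · subst b1 d1 a1 a2 c1 c2
        exact key a3 c3.symm (hs _ _ d2) b2
    · exact hyw.symm (JJ d1 d2 a1 a2 d3 a3)
  · exact hxz (JJ a1 a2 b1 b2 a3 b3)

end

end Run7.h236.Rot
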