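import Pool.Agent.Run7.h236.Rot.A2

set_option autoImplicit false

/-! # The template with four blocks -/

namespace Run7.h236.Rot

open Sum

/-- the colour pattern of a pole: exactly one of the pairs is monochromatic, the other pair has
the two colours different from `c` -/
def GT (c a0 a1 b0 b1 : Fin 3) : Prop :=
  (a0 = a1 ∧ b0 ≠ b1 ∧ b0 ≠ c ∧ b1 ≠ c) ∨ (b0 = b1 ∧ a0 ≠ a1 ∧ a0 ≠ c ∧ a1 ≠ c)

instance (c a0 a1 b0 b1 : Fin 3) : Decidable (GT c a0 a1 b0 b1) := by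
  unfold GT; infer_instance

/-- good poles -/
structure Good {V : Type} (A : V → V → Prop) (t : Fin 5 → V) : Prop where
  tinj : Function.Injective t
  symm : ∀ x y, A x y → A y x
  irrefl : ∀ x, ¬ A x x
  deg : ∀ v, Nat.card {w // A v w} + Nat.card {p // t p = v} = 3
  tri : ∀ x y z, A x y → A y z → A z x → False
  quad : ∀ x y z w, x ≠ z → y ≠ w → A x y → A y z → A z w → A w x → False
  hc : ∀ p, ¬ A (t 0) (t p)
  h12 : ¬ A (t 1) (t 2)
  h34 : ¬ A (t 3) (t 4)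
  conn1 : ∀ S : V → Bool, (∃ x, S x = true) → (∃ x, S x = false) → 2 ≤ cr A S
  conn2 : ∀ S : V → Bool, (∃ x y, x ≠ y ∧ S x = true ∧ S y = true) →
    4 ≤ cr A S + (Finset.univ.filter fun p => S (t p) = true).card
  typ : ∀ (f : V → V → Fin 3) (g : Fin 5 → Fin 3), (∀ x y, A x y → f x y = f y x) →
    (∀ x y z, A x y → A x z → y ≠ z → f x y ≠ f x z) →
    (∀ p y, A (t p) y → f (t p) y ≠ g p) → GT (g 0) (g 1) (g 2) (g 3) (g 4)

/-- the 12 edges of the template -/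
def eF : Fin 12 → Nd (Fin 3) (Fin 4) × Nd (Fin 3) (Fin 4) :=
  ![(inl 0, inl 1), (inl 0, inl 2), (inl 1, inr (0, 0)), (inl 1, inr (1, 0)),
    (inl 2, inr (2, 0)), (inl 2, inr (3, 0)), (inr (1, 1), inr (2, 1)), (inr (1, 2), inr (2, 2)),
    (inr (2, 3), inr (3, 1)), (inr (2, 4), inr (3, 4)), (inr (3, 2), inr (0, 3)),
    (inr (3, 3), inr (0, 4))]

/-- the outer ports of the template -/
def oF : Fin 5 → Nd (Fin 3) (Fin 4) := ![inl 0, inr (1, 3), inr (1, 4), inr (0, 1), inr (0, 2)]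

set_option synthInstance.maxSize 2048 in
theorem TOK_F : TOK eF oF where
  einj1 := by decide +kernel
  einj2 := by decide +kernel
  oinj := by decide +kernel
  noself := by decide +kernel
  noloop := by decide +kernel
  uniq := by decide +kernel
  pdeg := by decide +kernel
  rdeg := by decide +kernel
  rport := by decide +kernel
  rtri := by decide +kernel
  rquad := by decide +kernel
  jquad := by decide +kernel

/-- the number of outer ports in a set of nodes -/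
def wo {R B : Type} {q : ℕ} (o : Fin q → Nd R B) (s : Nd R B → Bool) : ℕ :=
  (Finset.univ.filter fun p => s (o p) = true).card

/-- a set of nodes which is constant on blocks -/
def lift {R B : Type} (ρ : R → Bool) (σ : B → Bool) : Nd R B → Bool
  | inl i => ρ i
  | inr (j, _) => σ j

/-- a set of ports of one block -/
def one {R B : Type} [DecidableEq B] (j : B) (b : Fin 5 → Bool) : Nd R B → Bool
  | inl _ => false
  | inr (k, p) => if k = j then b p else false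

/-- nodes outside a block -/
def nt {R B : Type} [DecidableEq B] (j : B) : Nd R B → Bool
  | inl _ => true
  | inr (k, _) => if k = j then false else true

/-- the number of template edges and outer ports outside block `j` in the cut -/
def wn {R B : Type} [DecidableEq B] {m q : ℕ} (e : Fin m → Nd R B × Nd R B)
    (o : Fin q → Nd R B) (j : B) (s : Nd R B → Bool) : ℕ :=
  (Finset.univ.filter fun k => nt j (e k).1 = true ∧ nt j (e k).2 = true ∧
    s (e k).1 ≠ s (e k).2).card +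
  (Finset.univ.filter fun p => nt j (o p) = true ∧ s (o p) = true).card

theorem chk1 : ∀ ρ0 ρ1 ρ2 σ0 σ1 σ2 σ3 : Bool, (ρ0 = ρ1 ∧ ρ1 = ρ2 ∧ ρ2 = σ0 ∧ σ0 = σ1 ∧ σ1 = σ2 ∧
    σ2 = σ3) ∨ 2 ≤ wt eF (lift ![ρ0, ρ1, ρ2] ![σ0, σ1, σ2, σ3]) := by decide +kernel

theorem chk2 : ∀ j : Fin 4, ∀ ρ0 ρ1 ρ2 σ0 σ1 σ2 σ3 : Bool,
    (ρ0 = false ∧ ρ1 = false ∧ ρ2 = false ∧ (∀ k, k ≠ j → ![σ0, σ1, σ2, σ3] k = false)) ∨
    2 ≤ wn eF oF j (lift ![ρ0, ρ1, ρ2] ![σ0, σ1, σ2, σ3]) := by decide +kernel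

theorem chk3 : ∀ j : Fin 4, ∀ b0 b1 b2 b3 b4 : Bool,
    (Finset.univ.filter fun p => ![b0, b1, b2, b3, b4] p = true).card ≤
      wt eF (one j ![b0, b1, b2, b3, b4]) + wo oF (one j ![b0, b1, b2, b3, b4]) := by
  decide +kernel

set_option synthInstance.maxSize 2048 in
theorem chk4 : ∀ ρ0 ρ1 ρ2 σ0 σ1 σ2 σ3 : Bool,
    (σ0 = false ∧ σ1 = false ∧ σ2 = false ∧ σ3 = false ∧
      ∀ i i', ![ρ0, ρ1, ρ2] i = true → ![ρ0, ρ1, ρ2] i' = true → i = i') ∨
    4 ≤ wt eF (lift ![ρ0, ρ1, ρ2] ![σ0, σ1, σ2, σ3]) +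
      wo oF (lift ![ρ0, ρ1, ρ2] ![σ0, σ1, σ2, σ3]) := by decide +kernel

theorem comb : ∀ c cA, cA ≠ c → ∀ cB, cB ≠ c → cA ≠ cB → ∀ c1, c1 ≠ cA → ∀ c2, c2 ≠ cA →
    c1 ≠ c2 → ∀ c3, c3 ≠ cB → ∀ c4, c4 ≠ cB → c3 ≠ c4 →
    ∀ m0 m1 g1 g2 : Fin 3, GT c2 m0 m1 g1 g2 → ∀ n0 n1, GT c3 m0 m1 n0 n1 →
    ∀ k0 k1, GT c4 n0 k0 k1 n1 → ∀ g3 g4, GT c1 g3 g4 k0 k1 → GT c g1 g2 g3 g4 := by
  decide +kernel

end Run7.h236.Rot
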