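import Pool.Agent.Run7.h236.Rot.A3

set_option autoImplicit false

/-! # The four-block composite of a good pole is good -/

namespace Run7.h236.Rot

open Sum

variable {V : Type}

/-- block `j` is cut by `S` -/
def nontriv {R B V : Type} (S : R ⊕ (B × V) → Bool) (j : B) : Prop :=
  (∃ v, S (inr (j, v)) = true) ∧ ∃ v, S (inr (j, v)) = false

theorem const_of_triv {R B V : Type} [Nonempty V] (S : R ⊕ (B × V) → Bool) (j : B)
    (h : ¬ nontriv S j) : ∃ b, ∀ v, S (inr (j, v)) = b := by
  obtain ⟨v0⟩ := ‹Nonempty V›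
  refine ⟨S (inr (j, v0)), fun v => ?_⟩
  unfold nontriv at h
  push Not at h
  rcases hv : S (inr (j, v0)) with _ | _
  · by_contra h'
    have h1 := h ⟨v, by simpa using h'⟩ v0
    exact h1 hv
  · by_contra h'
    exact h ⟨v0, hv⟩ v (by simpa using h')

section

variable {R B : Type} {m q : ℕ} [Fintype R] [Fintype B] [DecidableEq R] [DecidableEq B] [Finite V]
  {A : V → V → Prop} {t : Fin 5 → V} {e : Fin m → Nd R B × Nd R B} {o : Fin q → Nd R B}

theorem wn_le (s s' : Nd R B → Bool) (j : B) (h : ∀ a, nt j a = true → s a = s' a) :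
    wn e o j s' ≤ wt e s + wo o s := by
  unfold wn wt wo
  apply Nat.add_le_add
  · apply Finset.card_le_card
    intro k hk
    simp only [Finset.mem_filter, Finset.mem_univ, true_and] at hk ⊢
    rw [h _ hk.1, h _ hk.2.1]
    exact hk.2.2
  · apply Finset.card_le_card
    intro k hk
    simp only [Finset.mem_filter, Finset.mem_univ, true_and] at hk ⊢
    rw [h _ hk.1]
    exact hk.2

theorem sum_two (c : B → ℕ) (j k : B) (hjk : j ≠ k) : c j + c k ≤ ∑ i, c i := by
  rw [← Finset.sum_pair hjk]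
  exact Finset.sum_le_sum_of_subset (Finset.subset_univ _)

theorem sum_one (c : B → ℕ) (j : B) : c j ≤ ∑ i, c i :=
  Finset.single_le_sum (f := c) (fun _ _ => Nat.zero_le _) (Finset.mem_univ j)

/-- the colouring condition for a block of the composite -/
theorem block_typ (T : TOK e o) (hG : Good A t) (f : (R ⊕ (B × V)) → (R ⊕ (B × V)) → Fin 3)
    (g : Fin q → Fin 3) (h1 : ∀ x y, comp A t e x y → f x y = f y x)
    (h2 : ∀ x y z, comp A t e x y → comp A t e x z → y ≠ z → f x y ≠ f x z)
    (h3 : ∀ p y, comp A t e (tau t (o p)) y → f (tau t (o p)) y ≠ g p)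
    (j : B) (g' : Fin 5 → Fin 3)
    (h : ∀ p, (∃ b, TAdj e (inr (j, p)) b ∧ g' p = f (tau t (inr (j, p))) (tau t b)) ∨
      ∃ k, o k = inr (j, p) ∧ g' p = g k) : GT (g' 0) (g' 1) (g' 2) (g' 3) (g' 4) := by
  apply hG.typ (fun v w => f (inr (j, v)) (inr (j, w))) g'
  · intro x y hxy
    exact h1 _ _ (Or.inl ⟨j, x, y, rfl, rfl, hxy⟩)
  · intro x y z hxy hxz hyz
    exact h2 _ _ _ (Or.inl ⟨j, x, y, rfl, rfl, hxy⟩) (Or.inl ⟨j, x, z, rfl, rfl, hxz⟩)
      (fun h => hyz (by simpa using h))
  · intro p y hpy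
    rcases h p with ⟨b, hb, hg⟩ | ⟨k, hk, hg⟩
    · rw [hg]
      refine h2 _ _ _ (Or.inl ⟨j, t p, y, rfl, rfl, hpy⟩) (Or.inr ⟨inr (j, p), b, hb, rfl, rfl⟩) ?_
      intro h'
      obtain ⟨p', rfl, -⟩ := tau_eq_inr h'
      exact T.noself _ _ _ hb
    · rw [hg]
      have := h3 k (inr (j, y))
      rw [hk] at this
      exact this (Or.inl ⟨j, t p, y, rfl, rfl, hpy⟩)

end

/-- the graph of the composite -/
def AF (A : V → V → Prop) (t : Fin 5 → V) :
    (Fin 3 ⊕ (Fin 4 × V)) → (Fin 3 ⊕ (Fin 4 × V)) → Prop := comp A t eF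

/-- the ports of the composite -/
def tF (t : Fin 5 → V) : Fin 5 → Fin 3 ⊕ (Fin 4 × V) := fun p => tau t (oF p)

theorem vec3 {α : Type} (ρ : Fin 3 → α) : ![ρ 0, ρ 1, ρ 2] = ρ := by
  funext i; fin_cases i <;> rfl

theorem vec4 {α : Type} (ρ : Fin 4 → α) : ![ρ 0, ρ 1, ρ 2, ρ 3] = ρ := by
  funext i; fin_cases i <;> rfl

theorem vec5 {α : Type} (ρ : Fin 5 → α) : ![ρ 0, ρ 1, ρ 2, ρ 3, ρ 4] = ρ := by
  funext i; fin_cases i <;> rfl

theorem conn1_F [Finite V] {A : V → V → Prop} {t : Fin 5 → V} (hG : Good A t)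
    (S : Fin 3 ⊕ (Fin 4 × V) → Bool) (h1 : ∃ x, S x = true) (h2 : ∃ x, S x = false) :
    2 ≤ cr (AF A t) S := by
  have hne : Nonempty V := ⟨t 0⟩
  have hcr := cr_comp (A := A) TOK_F hG.tinj S
  unfold AF
  by_cases h : ∃ j, nontriv S j
  · obtain ⟨j, hj1, hj2⟩ := h
    have := hG.conn1 (fun v => S (inr (j, v))) hj1 hj2
    have h5 := sum_one (fun j => cr A (fun v => S (inr (j, v)))) j
    omega
  · push Not at h
    choose σ hσ using fun j => const_of_triv S j (h j)
    have hs : (fun a => S (tau t a)) = lift (fun i => S (inl i)) σ := by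
      funext a
      rcases a with i | ⟨j, p⟩
      · rfl
      · exact hσ j _
    rw [hs] at hcr
    have h5 := chk1 (S (inl 0)) (S (inl 1)) (S (inl 2)) (σ 0) (σ 1) (σ 2) (σ 3)
    rw [vec4 σ, vec3 (fun i => S (inl i))] at h5
    rcases h5 with ⟨a1, a2, a3, a4, a5, a6⟩ | h5
    · exfalso
      have hc : ∀ x, S x = S (inl 0) := by
        rintro (i | ⟨j, v⟩)
        · fin_cases i
          · rfl
          · exact a1.symm
          · exact (a1.trans a2).symm
        · rw [hσ j v]
          have e0 : σ 0 = S (inl 0) := (a1.trans (a2.trans a3)).symm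
          have e1 : σ 1 = S (inl 0) := a4.symm.trans e0
          have e2 : σ 2 = S (inl 0) := a5.symm.trans e1
          have e3 : σ 3 = S (inl 0) := a6.symm.trans e2
          fin_cases j
          · exact e0
          · exact e1
          · exact e2
          · exact e3
      obtain ⟨x, hx⟩ := h1
      obtain ⟨y, hy⟩ := h2
      rw [hc] at hx hy
      rw [hx] at hy
      exact Bool.noConfusion hy
    · omega

theorem conn2_F [Finite V] {A : V → V → Prop} {t : Fin 5 → V} (hG : Good A t)
    (S : Fin 3 ⊕ (Fin 4 × V) → Bool) (h1 : ∃ x y, x ≠ y ∧ S x = true ∧ S y = true) :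
    4 ≤ cr (AF A t) S + (Finset.univ.filter fun p => S (tF t p) = true).card := by
  have hne : Nonempty V := ⟨t 0⟩
  have hcr := cr_comp (A := A) TOK_F hG.tinj S
  have hwo : (Finset.univ.filter fun p => S (tF t p) = true).card =
      wo oF (fun a => S (tau t a)) := rfl
  rw [hwo]
  unfold AF
  by_cases h : ∃ j, nontriv S j
  · obtain ⟨j, hj⟩ := h
    by_cases h' : ∃ k, k ≠ j ∧ nontriv S k
    · obtain ⟨k, hkj, hk⟩ := h'
      have e1 := hG.conn1 (fun v => S (inr (j, v))) hj.1 hj.2
      have e2 := hG.conn1 (fun v => S (inr (k, v))) hk.1 hk.2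
      have h5 := sum_two (fun j => cr A (fun v => S (inr (j, v)))) k j hkj
      omega
    · push Not at h'
      have hσ' : ∀ k, ∃ b, k ≠ j → ∀ v, S (inr (k, v)) = b := by
        intro k
        by_cases hk : k = j
        · exact ⟨false, fun h => absurd hk h⟩
        · obtain ⟨b, hb⟩ := const_of_triv S k (h' k hk)
          exact ⟨b, fun _ => hb⟩
      choose σ hσ using hσ'
      have e1 := hG.conn1 (fun v => S (inr (j, v))) hj.1 hj.2
      have e3 := sum_one (fun j => cr A (fun v => S (inr (j, v)))) j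
      have hag : ∀ a, nt j a = true → S (tau t a) = lift (fun i => S (inl i)) σ a := by
        rintro (i | ⟨k, p⟩) ha
        · rfl
        · simp only [nt] at ha
          by_cases hk : k = j
          · simp [hk] at ha
          · exact hσ k hk _
      have e4 := wn_le (e := eF) (o := oF) (fun a => S (tau t a)) _ j hag
      have h5 := chk2 j (S (inl 0)) (S (inl 1)) (S (inl 2)) (σ 0) (σ 1) (σ 2) (σ 3)
      rw [vec4 σ, vec3 (fun i => S (inl i))] at h5
      rcases h5 with ⟨a1, a2, a3, a4⟩ | h5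
      · have hone : (fun a => S (tau t a)) = one j (fun p => S (inr (j, t p))) := by
          funext a
          rcases a with i | ⟨k, p⟩
          · change S (inl i) = false
            fin_cases i
            · exact a1
            · exact a2
            · exact a3
          · change S (inr (k, t p)) = if k = j then S (inr (j, t p)) else false
            by_cases hk : k = j
            · rw [if_pos hk, hk]
            · rw [if_neg hk, hσ k hk]
              exact a4 k hk
        have h6 := chk3 j (S (inr (j, t 0))) (S (inr (j, t 1))) (S (inr (j, t 2)))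
          (S (inr (j, t 3))) (S (inr (j, t 4)))
        rw [vec5 (fun p => S (inr (j, t p)))] at h6
        rw [hone] at hcr ⊢
        have h7 := hG.conn2 (fun v => S (inr (j, v))) (by
          obtain ⟨x, y, hxy, hx, hy⟩ := h1
          have hin : ∀ z, S z = true → ∃ v, z = inr (j, v) := by
            rintro (i | ⟨k, v⟩) hz
            · exfalso
              fin_cases i
              · exact Bool.noConfusion (a1.symm.trans hz)
              · exact Bool.noConfusion (a2.symm.trans hz)
              · exact Bool.noConfusion (a3.symm.trans hz)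
            · by_cases hk : k = j
              · exact ⟨v, by rw [hk]⟩
              · rw [hσ k hk] at hz
                exact absurd (a4 k hk) (by rw [hz]; exact Bool.noConfusion)
          obtain ⟨v, rfl⟩ := hin x hx
          obtain ⟨w, rfl⟩ := hin y hy
          exact ⟨v, w, fun h => hxy (by rw [h]), hx, hy⟩)
        have h8 : (Finset.univ.filter fun p => S (inr (j, t p)) = true).card ≤
          wt eF (one j fun p => S (inr (j, t p))) + wo oF (one j fun p => S (inr (j, t p))) := h6
        have h9 : 4 ≤ cr A (fun v => S (inr (j, v))) +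
          (Finset.univ.filter fun p => S (inr (j, t p)) = true).card := h7
        omega
      · omega
  · push Not at h
    choose σ hσ using fun j => const_of_triv S j (h j)
    have hs : (fun a => S (tau t a)) = lift (fun i => S (inl i)) σ := by
      funext a
      rcases a with i | ⟨j, p⟩
      · rfl
      · exact hσ j _
    rw [hs] at hcr ⊢
    have h5 := chk4 (S (inl 0)) (S (inl 1)) (S (inl 2)) (σ 0) (σ 1) (σ 2) (σ 3)
    rw [vec4 σ, vec3 (fun i => S (inl i))] at h5
    rcases h5 with ⟨a1, a2, a3, a4, a5⟩ | h5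
    · exfalso
      obtain ⟨x, y, hxy, hx, hy⟩ := h1
      have hin : ∀ z, S z = true → ∃ i, z = inl i := by
        rintro (i | ⟨k, v⟩) hz
        · exact ⟨i, rfl⟩
        · exfalso
          rw [hσ k] at hz
          fin_cases k
          · exact Bool.noConfusion (a1.symm.trans hz)
          · exact Bool.noConfusion (a2.symm.trans hz)
          · exact Bool.noConfusion (a3.symm.trans hz)
          · exact Bool.noConfusion (a4.symm.trans hz)
      obtain ⟨v, rfl⟩ := hin x hx
      obtain ⟨w, rfl⟩ := hin y hy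
      exact hxy (by rw [a5 v w hx hy])
    · omega

theorem typ_F [Finite V] {A : V → V → Prop} {t : Fin 5 → V} (hG : Good A t)
    (f : (Fin 3 ⊕ (Fin 4 × V)) → (Fin 3 ⊕ (Fin 4 × V)) → Fin 3) (g : Fin 5 → Fin 3)
    (h1 : ∀ x y, AF A t x y → f x y = f y x)
    (h2 : ∀ x y z, AF A t x y → AF A t x z → y ≠ z → f x y ≠ f x z)
    (h3 : ∀ p y, AF A t (tF t p) y → f (tF t p) y ≠ g p) :
    GT (g 0) (g 1) (g 2) (g 3) (g 4) := by
  have hT : ∀ a b, TAdj eF a b → comp A t eF (tau t a) (tau t b) :=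
    fun a b h => Or.inr ⟨a, b, h, rfl, rfl⟩
  have hsy : ∀ a b, TAdj eF a b → f (tau t a) (tau t b) = f (tau t b) (tau t a) :=
    fun a b h => h1 _ _ (hT a b h)
  have hne : ∀ a b c, TAdj eF a b → TAdj eF a c → b ≠ c →
      f (tau t a) (tau t b) ≠ f (tau t a) (tau t c) :=
    fun a b c h h' hbc => h2 _ _ _ (hT a b h) (hT a c h') (fun h => hbc (tau_inj hG.tinj h))
  have B := block_typ (B := Fin 4) TOK_F hG f g h1 h2 h3
  -- colours
  set φ : Nd (Fin 3) (Fin 4) → Nd (Fin 3) (Fin 4) → Fin 3 := fun a b => f (tau t a) (tau t b)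
    with hφ
  have B0 := B 0 ![φ (inl 1) (inr (0, 0)), g 3, g 4, φ (inr (3, 2)) (inr (0, 3)),
    φ (inr (3, 3)) (inr (0, 4))] (by
      intro p
      fin_cases p
      · exact Or.inl ⟨inl 1, by decide, hsy _ _ (by decide)⟩
      · exact Or.inr ⟨3, rfl, rfl⟩
      · exact Or.inr ⟨4, rfl, rfl⟩
      · exact Or.inl ⟨inr (3, 2), by decide, hsy _ _ (by decide)⟩
      · exact Or.inl ⟨inr (3, 3), by decide, hsy _ _ (by decide)⟩)
  have B1 := B 1 ![φ (inl 1) (inr (1, 0)), φ (inr (1, 1)) (inr (2, 1)),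
    φ (inr (1, 2)) (inr (2, 2)), g 1, g 2] (by
      intro p
      fin_cases p
      · exact Or.inl ⟨inl 1, by decide, hsy _ _ (by decide)⟩
      · exact Or.inl ⟨inr (2, 1), by decide, rfl⟩
      · exact Or.inl ⟨inr (2, 2), by decide, rfl⟩
      · exact Or.inr ⟨1, rfl, rfl⟩
      · exact Or.inr ⟨2, rfl, rfl⟩)
  have B2 := B 2 ![φ (inl 2) (inr (2, 0)), φ (inr (1, 1)) (inr (2, 1)),
    φ (inr (1, 2)) (inr (2, 2)), φ (inr (2, 3)) (inr (3, 1)), φ (inr (2, 4)) (inr (3, 4))] (by
      intro p
      fin_cases p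
      · exact Or.inl ⟨inl 2, by decide, hsy _ _ (by decide)⟩
      · exact Or.inl ⟨inr (1, 1), by decide, hsy _ _ (by decide)⟩
      · exact Or.inl ⟨inr (1, 2), by decide, hsy _ _ (by decide)⟩
      · exact Or.inl ⟨inr (3, 1), by decide, rfl⟩
      · exact Or.inl ⟨inr (3, 4), by decide, rfl⟩)
  have B3 := B 3 ![φ (inl 2) (inr (3, 0)), φ (inr (2, 3)) (inr (3, 1)),
    φ (inr (3, 2)) (inr (0, 3)), φ (inr (3, 3)) (inr (0, 4)), φ (inr (2, 4)) (inr (3, 4))] (by
      intro p
      fin_cases p
      · exact Or.inl ⟨inl 2, by decide, hsy _ _ (by decide)⟩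
      · exact Or.inl ⟨inr (2, 3), by decide, hsy _ _ (by decide)⟩
      · exact Or.inl ⟨inr (0, 3), by decide, rfl⟩
      · exact Or.inl ⟨inr (0, 4), by decide, rfl⟩
      · exact Or.inl ⟨inr (2, 4), by decide, hsy _ _ (by decide)⟩)
  refine comb (g 0) (φ (inl 0) (inl 1)) ?_ (φ (inl 0) (inl 2)) ?_ ?_ (φ (inl 1) (inr (0, 0))) ?_
    (φ (inl 1) (inr (1, 0))) ?_ ?_ (φ (inl 2) (inr (2, 0))) ?_ (φ (inl 2) (inr (3, 0))) ?_ ?_
    _ _ (g 1) (g 2) B1 _ _ B2 _ _ B3 (g 3) (g 4) B0
  · exact h3 0 _ (hT (inl 0) (inl 1) (by decide))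
  · exact h3 0 _ (hT (inl 0) (inl 2) (by decide))
  · exact hne _ _ _ (by decide) (by decide) (by decide)
  · rw [show φ (inl 0) (inl 1) = φ (inl 1) (inl 0) from hsy _ _ (by decide)]
    exact hne _ _ _ (by decide) (by decide) (by decide)
  · rw [show φ (inl 0) (inl 1) = φ (inl 1) (inl 0) from hsy _ _ (by decide)]
    exact hne _ _ _ (by decide) (by decide) (by decide)
  · exact hne _ _ _ (by decide) (by decide) (by decide)
  · rw [show φ (inl 0) (inl 2) = φ (inl 2) (inl 0) from hsy _ _ (by decide)]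
    exact hne _ _ _ (by decide) (by decide) (by decide)
  · rw [show φ (inl 0) (inl 2) = φ (inl 2) (inl 0) from hsy _ _ (by decide)]
    exact hne _ _ _ (by decide) (by decide) (by decide)
  · exact hne _ _ _ (by decide) (by decide) (by decide)

theorem Good_F [Finite V] {A : V → V → Prop} {t : Fin 5 → V} (hG : Good A t) :
    Good (AF A t) (tF t) where
  tinj := fun p p' h => TOK_F.oinj _ _ (tau_inj hG.tinj h)
  symm := comp_symm hG.symm
  irrefl := comp_irrefl hG.tinj hG.irrefl TOK_F.noself TOK_F.noloop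
  deg := deg_comp TOK_F hG.tinj hG.deg
  tri := tri_comp TOK_F hG.tinj hG.symm hG.irrefl hG.hc hG.tri
  quad := quad_comp TOK_F hG.tinj hG.symm hG.irrefl hG.hc hG.h12 hG.h34 hG.quad
  hc := by
    intro p h
    rcases comp_tau hG.tinj (a := oF 0) h with ⟨j, p', v, h0, -, -⟩ | ⟨d, hd, h'⟩
    · exact absurd h0 (by simp [oF])
    · have : oF p = d := tau_inj hG.tinj h'
      subst this
      have key : ∀ p, ¬ TAdj eF (oF 0) (oF p) := by decide
      exact key p hd
  h12 := by
    intro h
    rcases comp_rr (j := 1) (k := 1) (v := t 3) (w := t 4) h with ⟨-, h⟩ | ⟨p, q, hp, hq, h⟩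
    · exact hG.h34 h
    · rw [hG.tinj hp, hG.tinj hq] at h
      exact TOK_F.noself _ _ _ h
  h34 := by
    intro h
    rcases comp_rr (j := 0) (k := 0) (v := t 1) (w := t 2) h with ⟨-, h⟩ | ⟨p, q, hp, hq, h⟩
    · exact hG.h12 h
    · rw [hG.tinj hp, hG.tinj hq] at h
      exact TOK_F.noself _ _ _ h
  conn1 := conn1_F hG
  conn2 := conn2_F hG
  typ := typ_F hG

end Run7.h236.Rot
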