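import Pool.Agent.Run7.h236.Rot.A4

set_option autoImplicit false

/-! # The pole on seven vertices: the Petersen graph without a path on three vertices -/

namespace Run7.h236.Rot

open Sum

def E0 : List (Fin 7 × Fin 7) :=
  [(0, 1), (0, 2), (1, 3), (1, 4), (2, 5), (2, 6), (3, 5), (4, 6)]

def A0 (x y : Fin 7) : Prop := (x, y) ∈ E0 ∨ (y, x) ∈ E0

instance (x y : Fin 7) : Decidable (A0 x y) := by unfold A0; infer_instance

def t0 : Fin 5 → Fin 7 := ![0, 3, 6, 5, 4]

def cr0 (S : Fin 7 → Bool) : ℕ :=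
  (Finset.univ.filter fun p : Fin 7 × Fin 7 => S p.1 = true ∧ S p.2 = false ∧ A0 p.1 p.2).card

theorem cr_eq (S : Fin 7 → Bool) : cr A0 S = cr0 S := by
  unfold cr cr0
  rw [Nat.card_eq_fintype_card, Fintype.card_subtype]

theorem vec7 {α : Type} (ρ : Fin 7 → α) : ![ρ 0, ρ 1, ρ 2, ρ 3, ρ 4, ρ 5, ρ 6] = ρ := by
  funext i; fin_cases i <;> rfl

set_option synthInstance.maxSize 2048 in
theorem chk5 : ∀ s0 s1 s2 s3 s4 s5 s6 : Bool,
    (s0 = s1 ∧ s1 = s2 ∧ s2 = s3 ∧ s3 = s4 ∧ s4 = s5 ∧ s5 = s6) ∨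
      2 ≤ cr0 ![s0, s1, s2, s3, s4, s5, s6] := by decide +kernel

set_option synthInstance.maxSize 2048 in
theorem chk6 : ∀ s0 s1 s2 s3 s4 s5 s6 : Bool,
    (∀ i, ![s0, s1, s2, s3, s4, s5, s6] i = true → ∀ i',
      ![s0, s1, s2, s3, s4, s5, s6] i' = true → i = i') ∨
      4 ≤ cr0 ![s0, s1, s2, s3, s4, s5, s6] +
        (Finset.univ.filter fun p => ![s0, s1, s2, s3, s4, s5, s6] (t0 p) = true).card := by
  decide +kernel

set_option synthInstance.maxSize 4096 in
theorem chk7 : ∀ c ra : Fin 3, ra ≠ c → ∀ rb, rb ≠ c → ra ≠ rb → ∀ a1, a1 ≠ ra → ∀ a2, a2 ≠ ra →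
    a1 ≠ a2 → ∀ b1, b1 ≠ rb → ∀ b2, b2 ≠ rb → b1 ≠ b2 → ∀ e1, e1 ≠ a1 → e1 ≠ b1 →
    ∀ e2, e2 ≠ a2 → e2 ≠ b2 → ∀ g1, g1 ≠ a1 → g1 ≠ e1 → ∀ g3, g3 ≠ b1 → g3 ≠ e1 →
    ∀ g4, g4 ≠ a2 → g4 ≠ e2 → ∀ g2, g2 ≠ b2 → g2 ≠ e2 → GT c g1 g2 g3 g4 := by
  decide +kernel

theorem Good_0 : Good A0 t0 where
  tinj := by decide
  symm := by decide
  irrefl := by decide
  deg := by
    intro v
    rw [Nat.card_eq_fintype_card, Fintype.card_subtype, Nat.card_eq_fintype_card,
      Fintype.card_subtype]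
    revert v
    decide
  tri := by decide +kernel
  quad := by decide +kernel
  hc := by decide
  h12 := by decide
  h34 := by decide
  conn1 := by
    intro S ⟨x, hx⟩ ⟨y, hy⟩
    rw [cr_eq]
    have h := chk5 (S 0) (S 1) (S 2) (S 3) (S 4) (S 5) (S 6)
    rw [vec7 S] at h
    rcases h with ⟨a1, a2, a3, a4, a5, a6⟩ | h
    · exfalso
      have b1 : S 1 = S 0 := a1.symm
      have b2 : S 2 = S 0 := a2.symm.trans b1
      have b3 : S 3 = S 0 := a3.symm.trans b2
      have b4 : S 4 = S 0 := a4.symm.trans b3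
      have b5 : S 5 = S 0 := a5.symm.trans b4
      have b6 : S 6 = S 0 := a6.symm.trans b5
      have hc : ∀ i, S i = S 0 := by
        intro i
        fin_cases i
        · rfl
        · exact b1
        · exact b2
        · exact b3
        · exact b4
        · exact b5
        · exact b6
      rw [hc x] at hx
      rw [hc y, hx] at hy
      exact Bool.noConfusion hy
    · exact h
  conn2 := by
    intro S ⟨x, y, hxy, hx, hy⟩
    rw [cr_eq]
    have h := chk6 (S 0) (S 1) (S 2) (S 3) (S 4) (S 5) (S 6)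
    rw [vec7 S] at h
    rcases h with h | h
    · exact absurd (h x hx y hy) hxy
    · exact h
  typ := by
    intro f g h1 h2 h3
    have s : ∀ x y, A0 x y → f x y = f y x := h1
    have n : ∀ x y z, A0 x y → A0 x z → y ≠ z → f x y ≠ f x z := h2
    refine chk7 (g 0) (f 0 1) (h3 0 1 (by decide)) (f 0 2) (h3 0 2 (by decide))
      (n _ _ _ (by decide) (by decide) (by decide)) (f 1 3) ?_ (f 1 4) ?_ ?_ (f 2 5) ?_ (f 2 6) ?_ ?_
      (f 3 5) ?_ ?_ (f 4 6) ?_ ?_ (g 1) ?_ ?_ (g 3) ?_ ?_ (g 4) ?_ ?_ (g 2) ?_ ?_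
    · rw [s 0 1 (by decide)]
      exact n _ _ _ (by decide) (by decide) (by decide)
    · rw [s 0 1 (by decide)]
      exact n _ _ _ (by decide) (by decide) (by decide)
    · exact n _ _ _ (by decide) (by decide) (by decide)
    · rw [s 0 2 (by decide)]
      exact n _ _ _ (by decide) (by decide) (by decide)
    · rw [s 0 2 (by decide)]
      exact n _ _ _ (by decide) (by decide) (by decide)
    · exact n _ _ _ (by decide) (by decide) (by decide)
    · rw [s 1 3 (by decide)]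
      exact n _ _ _ (by decide) (by decide) (by decide)
    · rw [s 2 5 (by decide), s 3 5 (by decide)]
      exact n _ _ _ (by decide) (by decide) (by decide)
    · rw [s 1 4 (by decide)]
      exact n _ _ _ (by decide) (by decide) (by decide)
    · rw [s 2 6 (by decide), s 4 6 (by decide)]
      exact n _ _ _ (by decide) (by decide) (by decide)
    · rw [s 1 3 (by decide)]
      exact (h3 1 1 (by decide)).symm
    · exact (h3 1 5 (by decide)).symm
    · rw [s 2 5 (by decide)]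
      exact (h3 3 2 (by decide)).symm
    · rw [s 3 5 (by decide)]
      exact (h3 3 3 (by decide)).symm
    · rw [s 1 4 (by decide)]
      exact (h3 4 1 (by decide)).symm
    · exact (h3 4 6 (by decide)).symm
    · rw [s 2 6 (by decide)]
      exact (h3 2 2 (by decide)).symm
    · rw [s 4 6 (by decide)]
      exact (h3 2 4 (by decide)).symm

end Run7.h236.Rot
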