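import Pool.Agent.Run7.h236.Rot.A5

set_option autoImplicit false

/-! # Labelled binary trees in poles -/

namespace Run7.h236.Rot

open Sum

/-- the pole has `2 ^ k - 1` vertices, labelled by the vertices of a complete binary tree with
root `t 0`, and the edges of the tree are edges of the pole -/
structure Lab {V : Type} (A : V → V → Prop) (t : Fin 5 → V) (k : ℕ) (lab : V → ℕ × ℕ) : Prop where
  bd1 : ∀ v, (lab v).1 < k
  bd2 : ∀ v, (lab v).2 < 2 ^ (lab v).1
  inj : Function.Injective lab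
  surj : ∀ d c, d < k → c < 2 ^ d → ∃ v, lab v = (d, c)
  root : lab (t 0) = (0, 0)
  tree : ∀ v w, (lab w).1 = (lab v).1 + 1 → (lab v).2 = (lab w).2 / 2 → A v w

theorem digit {m c c' j j' : ℕ} (hc : c < m) (hc' : c' < m) (h : c + j * m = c' + j' * m) :
    j = j' ∧ c = c' := by
  have hm : 0 < m := by omega
  have h1 : (c + j * m) / m = j := by
    rw [Nat.add_mul_div_right _ _ hm, Nat.div_eq_of_lt hc, zero_add]
  have h2 : (c' + j' * m) / m = j' := by
    rw [Nat.add_mul_div_right _ _ hm, Nat.div_eq_of_lt hc', zero_add]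
  have h3 : j = j' := by rw [← h1, ← h2, h]
  subst h3
  exact ⟨rfl, by omega⟩

theorem half {d c j : ℕ} : (c + j * 2 ^ (d + 1)) / 2 = c / 2 + j * 2 ^ d := by
  rw [pow_succ, show c + j * (2 ^ d * 2) = c + (j * 2 ^ d) * 2 by ring,
    Nat.add_mul_div_right _ _ (by norm_num)]

/-- a label inside a block determines block and label, and children stay in the block -/
theorem child_block {d c c' j j' : ℕ} (hc : c < 2 ^ d) (hc' : c' < 2 ^ (d + 1))
    (h : c + j * 2 ^ d = (c' + j' * 2 ^ (d + 1)) / 2) : j = j' ∧ c = c' / 2 := by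
  rw [half] at h
  refine digit hc ?_ h
  rw [pow_succ] at hc'
  omega

def lab0 : Fin 7 → ℕ × ℕ := ![(0, 0), (1, 0), (1, 1), (2, 0), (2, 1), (2, 2), (2, 3)]

theorem Lab_0 : Lab A0 t0 3 lab0 where
  bd1 := by decide
  bd2 := by decide
  inj := by decide
  surj := by
    intro d c hd
    revert c
    interval_cases d
    · decide
    · decide
    · decide
  root := rfl
  tree := by decide

/-- the labelling of the composite -/
def labF {V : Type} (lab : V → ℕ × ℕ) : Fin 3 ⊕ (Fin 4 × V) → ℕ × ℕ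
  | inl i => ![(0, 0), (1, 0), (1, 1)] i
  | inr (j, v) => ((lab v).1 + 2, (lab v).2 + j.val * 2 ^ (lab v).1)

theorem Lab_F {V : Type} {A : V → V → Prop} {t : Fin 5 → V} {k : ℕ} {lab : V → ℕ × ℕ}
    (hL : Lab A t k lab) : Lab (AF A t) (tF t) (k + 2) (labF lab) where
  bd1 := by
    rintro (i | ⟨j, v⟩)
    · fin_cases i <;> simp [labF]
    · have := hL.bd1 v
      change (lab v).1 + 2 < k + 2
      omega
  bd2 := by
    rintro (i | ⟨j, v⟩)
    · fin_cases i <;> simp [labF]
    · have := hL.bd2 v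
      change (lab v).2 + j.val * 2 ^ (lab v).1 < 2 ^ ((lab v).1 + 2)
      have hj := j.2
      have e : 2 ^ ((lab v).1 + 2) = 4 * 2 ^ (lab v).1 := by ring
      rw [e]
      have : j.val * 2 ^ (lab v).1 ≤ 3 * 2 ^ (lab v).1 := Nat.mul_le_mul_right _ (by omega)
      omega
  inj := by
    rintro (i | ⟨j, v⟩) (i' | ⟨j', v'⟩) h
    · fin_cases i <;> fin_cases i' <;> simp [labF] at h ⊢
    · exfalso
      fin_cases i <;> simp [labF, Prod.ext_iff] at h
    · exfalso
      fin_cases i' <;> simp [labF, Prod.ext_iff] at h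
    · change ((lab v).1 + 2, (lab v).2 + j.val * 2 ^ (lab v).1) =
        ((lab v').1 + 2, (lab v').2 + j'.val * 2 ^ (lab v').1) at h
      rw [Prod.mk.injEq] at h
      obtain ⟨h1, h2⟩ := h
      have h1' : (lab v).1 = (lab v').1 := by omega
      rw [h1'] at h2
      have b1 := hL.bd2 v
      have b2 := hL.bd2 v'
      rw [h1'] at b1
      obtain ⟨h3, h4⟩ := digit b1 b2 h2
      have h5 : v = v' := hL.inj (Prod.ext h1' h4)
      rw [h5, Fin.ext h3]
  surj := by
    intro d c hd hc
    rcases d with _ | _ | d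
    · refine ⟨inl 0, ?_⟩
      have : c = 0 := by simpa using hc
      rw [this]
      rfl
    · have : c = 0 ∨ c = 1 := by
        have : c < 2 := by simpa using hc
        omega
      rcases this with rfl | rfl
      · exact ⟨inl 1, rfl⟩
      · exact ⟨inl 2, rfl⟩
    · have hm : 0 < 2 ^ d := by positivity
      have e : 2 ^ (d + 1 + 1) = 4 * 2 ^ d := by ring
      rw [e] at hc
      have hj : c / 2 ^ d < 4 := by
        rw [Nat.div_lt_iff_lt_mul hm]
        exact hc
      obtain ⟨v, hv⟩ := hL.surj d (c % 2 ^ d) (by omega) (Nat.mod_lt _ hm)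
      refine ⟨inr (⟨c / 2 ^ d, hj⟩, v), ?_⟩
      change ((lab v).1 + 2, (lab v).2 + c / 2 ^ d * 2 ^ (lab v).1) = _
      rw [hv]
      refine Prod.ext rfl ?_
      change c % 2 ^ d + c / 2 ^ d * 2 ^ d = c
      rw [mul_comm]
      exact Nat.mod_add_div c (2 ^ d)
  root := rfl
  tree := by
    rintro (i | ⟨j, v⟩) (i' | ⟨j', v'⟩) h1 h2
    · -- real-real
      have key : ∀ i i' : Fin 3, (![((0 : ℕ), (0 : ℕ)), (1, 0), (1, 1)] i').1 =
          (![((0 : ℕ), (0 : ℕ)), (1, 0), (1, 1)] i).1 + 1 →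
          TAdj eF (inl i) (inl i') := by decide
      exact Or.inr ⟨inl i, inl i', key i i' h1, rfl, rfl⟩
    · -- real-block
      change (lab v').1 + 2 = _ at h1
      change _ = ((lab v').2 + j'.val * 2 ^ (lab v').1) / 2 at h2
      have hi : (labF lab (inl i)).1 ≤ 1 := by fin_cases i <;> simp [labF]
      have hd : (lab v').1 = 0 := by omega
      have hb := hL.bd2 v'
      rw [hd] at hb h2 h1
      have hc : (lab v').2 = 0 := by simpa using hb
      rw [hc] at h2
      have hv : v' = t 0 := hL.inj (by rw [hL.root]; exact Prod.ext hd hc)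
      subst hv
      have key : ∀ (i : Fin 3) (j : Fin 4), (![((0 : ℕ), (0 : ℕ)), (1, 0), (1, 1)] i).1 = 1 →
          (![((0 : ℕ), (0 : ℕ)), (1, 0), (1, 1)] i).2 = j.val / 2 →
          TAdj eF (inl i) (inr (j, 0)) := by decide
      have e1 : (![((0 : ℕ), (0 : ℕ)), (1, 0), (1, 1)] i).1 = 1 := by
        have : (labF lab (inl i)).1 = (![((0 : ℕ), (0 : ℕ)), (1, 0), (1, 1)] i).1 := rfl
        omega
      have e2 : (![((0 : ℕ), (0 : ℕ)), (1, 0), (1, 1)] i).2 = j'.val / 2 := by
        have : (labF lab (inl i)).2 = (![((0 : ℕ), (0 : ℕ)), (1, 0), (1, 1)] i).2 := rfl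
        rw [← this, h2]
        simp
      exact Or.inr ⟨inl i, inr (j', 0), key i j' e1 e2, rfl, rfl⟩
    · -- block-real
      exfalso
      change _ = (lab v).1 + 2 + 1 at h1
      have hi : (labF lab (inl i')).1 ≤ 1 := by fin_cases i' <;> simp [labF]
      omega
    · change (lab v').1 + 2 = (lab v).1 + 2 + 1 at h1
      change (lab v).2 + j.val * 2 ^ (lab v).1 = ((lab v').2 + j'.val * 2 ^ (lab v').1) / 2 at h2
      have hd : (lab v').1 = (lab v).1 + 1 := by omega
      have b := hL.bd2 v'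
      rw [hd] at h2 b
      obtain ⟨h3, h4⟩ := child_block (hL.bd2 v) b h2
      exact Or.inl ⟨j, v, v', rfl, by rw [Fin.ext h3], hL.tree v v' hd h4⟩

/-- good labelled poles exist for all odd levels at least three -/
theorem exists_pole (n : ℕ) : ∃ (V : Type) (_ : Finite V) (A : V → V → Prop) (t : Fin 5 → V)
    (lab : V → ℕ × ℕ), Good A t ∧ Lab A t (2 * n + 3) lab := by
  induction n with
  | zero => exact ⟨Fin 7, inferInstance, A0, t0, lab0, Good_0, Lab_0⟩
  | succ n ih =>
    obtain ⟨V, hV, A, t, lab, hG, hL⟩ := ih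
    exact ⟨Fin 3 ⊕ (Fin 4 × V), inferInstance, AF A t, tF t, labF lab, Good_F hG, Lab_F hL⟩

end Run7.h236.Rot
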