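import Pool.Agent.Run7.h236.Rot.A6
import Pool.Agent.N366.RS.Stm

set_option autoImplicit false

/-! # Closing three copies of a pole to a rotation snark -/

namespace Run7.h236.Rot

open Sum
open Pool.Agent.N366.RS (width width_pos Node IsChild tree leaf IsSnark IsRotationTSnark)

/-- the 9 edges of the closing template -/
def eC : Fin 9 → Nd (Fin 1) (Fin 3) × Nd (Fin 1) (Fin 3) :=
  ![(inl 0, inr (0, 0)), (inl 0, inr (1, 0)), (inl 0, inr (2, 0)),
    (inr (0, 3), inr (1, 1)), (inr (0, 4), inr (1, 2)),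
    (inr (1, 3), inr (2, 1)), (inr (1, 4), inr (2, 2)),
    (inr (2, 3), inr (0, 1)), (inr (2, 4), inr (0, 2))]

def oC : Fin 0 → Nd (Fin 1) (Fin 3) := fun k => k.elim0

set_option synthInstance.maxSize 2048 in
theorem TOK_C : TOK eC oC where
  einj1 := by decide +kernel
  einj2 := by decide +kernel
  oinj := by decide +kernel
  noself := by decide +kernel
  noloop := by decide +kernel
  uniq := by decide +kernel
  pdeg := by decide +kernel
  rdeg := by decide +kernel
  rport := by decide +kernel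
  rtri := by decide +kernel
  rquad := by decide +kernel
  jquad := by decide +kernel

set_option synthInstance.maxSize 2048 in
theorem chk8 : ∀ j : Fin 3, ∀ σ0 σ1 σ2 : Bool,
    (∀ k, k ≠ j → ![σ0, σ1, σ2] k = false) ∨
    2 ≤ wn eC oC j (lift ![false] ![σ0, σ1, σ2]) := by decide +kernel

theorem chk9 : ∀ j : Fin 3, ∀ b0 b1 b2 b3 b4 : Bool,
    (Finset.univ.filter fun p => ![b0, b1, b2, b3, b4] p = true).card ≤
      wt eC (one j ![b0, b1, b2, b3, b4]) := by
  decide +kernel

theorem chk10 : ∀ σ0 σ1 σ2 : Bool,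
    (σ0 = false ∧ σ1 = false ∧ σ2 = false) ∨ (σ0 = true ∧ σ1 = true ∧ σ2 = true) ∨
    4 ≤ wt eC (lift ![false] ![σ0, σ1, σ2]) := by decide +kernel

theorem vec1 {α : Type} (ρ : Fin 1 → α) : ![ρ 0] = ρ := by
  funext i; fin_cases i; rfl

variable {V : Type}

/-- the graph of the closed composite -/
def AC (A : V → V → Prop) (t : Fin 5 → V) :
    (Fin 1 ⊕ (Fin 3 × V)) → (Fin 1 ⊕ (Fin 3 × V)) → Prop := comp A t eC

theorem connC0 [Finite V] {A : V → V → Prop} {t : Fin 5 → V} (hG : Good A t)
    (S : Fin 1 ⊕ (Fin 3 × V) → Bool) (h0 : S (inl 0) = false)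
    (h1 : ∃ x y, x ≠ y ∧ S x = true ∧ S y = true)
    (h2 : ∃ x y, x ≠ y ∧ S x = false ∧ S y = false) : 4 ≤ cr (AC A t) S := by
  have hne : Nonempty V := ⟨t 0⟩
  have hcr := cr_comp (A := A) TOK_C hG.tinj S
  unfold AC
  have hwo : ∀ s, wo oC s = 0 := fun s => by simp [wo]
  by_cases h : ∃ j, nontriv S j
  · obtain ⟨j, hj⟩ := h
    by_cases h' : ∃ k, k ≠ j ∧ nontriv S k
    · obtain ⟨k, hkj, hk⟩ := h'
      have e1 := hG.conn1 (fun v => S (inr (j, v))) hj.1 hj.2
      have e2 := hG.conn1 (fun v => S (inr (k, v))) hk.1 hk.2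
      have h5 := sum_two (fun j => cr A (fun v => S (inr (j, v)))) k j hkj
      omega
    · push Not at h'
      have hσ' : ∀ k, ∃ b, k ≠ j → ∀ v, S (inr (k, v)) = b := by
        intro k
        by_cases hk : k = j
        · exact ⟨false, fun h => absurd hk h⟩
        · obtain ⟨b, hb⟩ := const_of_triv S k (h' k hk)
          exact ⟨b, fun _ => hb⟩
      choose σ hσ using hσ'
      have e1 := hG.conn1 (fun v => S (inr (j, v))) hj.1 hj.2
      have e3 := sum_one (fun j => cr A (fun v => S (inr (j, v)))) j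
      have hl : lift ![false] σ = lift (fun i => S (inl i)) σ := by
        rw [← vec1 (fun i => S (inl i)), h0]
      have hag : ∀ a, nt j a = true → S (tau t a) = lift ![false] σ a := by
        rw [hl]
        rintro (i | ⟨k, p⟩) ha
        · rfl
        · simp only [nt] at ha
          by_cases hk : k = j
          · simp [hk] at ha
          · exact hσ k hk _
      have e4 := wn_le (e := eC) (o := oC) (fun a => S (tau t a)) _ j hag
      rw [hwo] at e4
      have h5 := chk8 j (σ 0) (σ 1) (σ 2)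
      rw [vec3 σ] at h5
      rcases h5 with a4 | h5
      · have hone : (fun a => S (tau t a)) = one j (fun p => S (inr (j, t p))) := by
          funext a
          rcases a with i | ⟨k, p⟩
          · change S (inl i) = false
            fin_cases i
            exact h0
          · change S (inr (k, t p)) = if k = j then S (inr (j, t p)) else false
            by_cases hk : k = j
            · rw [if_pos hk, hk]
            · rw [if_neg hk, hσ k hk]
              exact a4 k hk
        have h6 := chk9 j (S (inr (j, t 0))) (S (inr (j, t 1))) (S (inr (j, t 2)))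
          (S (inr (j, t 3))) (S (inr (j, t 4)))
        rw [vec5 (fun p => S (inr (j, t p)))] at h6
        rw [hone] at hcr
        have h7 := hG.conn2 (fun v => S (inr (j, v))) (by
          obtain ⟨x, y, hxy, hx, hy⟩ := h1
          have hin : ∀ z, S z = true → ∃ v, z = inr (j, v) := by
            rintro (i | ⟨k, v⟩) hz
            · exfalso
              fin_cases i
              exact Bool.noConfusion (h0.symm.trans hz)
            · by_cases hk : k = j
              · exact ⟨v, by rw [hk]⟩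
              · rw [hσ k hk] at hz
                exact absurd (a4 k hk) (by rw [hz]; exact Bool.noConfusion)
          obtain ⟨v, rfl⟩ := hin x hx
          obtain ⟨w, rfl⟩ := hin y hy
          exact ⟨v, w, fun h => hxy (by rw [h]), hx, hy⟩)
        have h8 : (Finset.univ.filter fun p => S (inr (j, t p)) = true).card ≤
          wt eC (one j fun p => S (inr (j, t p))) := h6
        have h9 : 4 ≤ cr A (fun v => S (inr (j, v))) +
          (Finset.univ.filter fun p => S (inr (j, t p)) = true).card := h7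
        omega
      · omega
  · push Not at h
    choose σ hσ using fun j => const_of_triv S j (h j)
    have hs : (fun a => S (tau t a)) = lift ![false] σ := by
      funext a
      rcases a with i | ⟨j, p⟩
      · fin_cases i
        exact h0
      · exact hσ j _
    rw [hs] at hcr
    have h5 := chk10 (σ 0) (σ 1) (σ 2)
    rw [vec3 σ] at h5
    rcases h5 with ⟨a1, a2, a3⟩ | ⟨a1, a2, a3⟩ | h5
    · exfalso
      obtain ⟨x, y, hxy, hx, hy⟩ := h1
      rcases x with i | ⟨k, v⟩
      · fin_cases i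
        exact Bool.noConfusion (h0.symm.trans hx)
      · rw [hσ k] at hx
        fin_cases k
        · exact Bool.noConfusion (a1.symm.trans hx)
        · exact Bool.noConfusion (a2.symm.trans hx)
        · exact Bool.noConfusion (a3.symm.trans hx)
    · exfalso
      obtain ⟨x, y, hxy, hx, hy⟩ := h2
      have hin : ∀ z, S z = false → z = inl 0 := by
        rintro (i | ⟨k, v⟩) hz
        · fin_cases i
          rfl
        · exfalso
          rw [hσ k] at hz
          fin_cases k
          · exact Bool.noConfusion (hz.symm.trans a1)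
          · exact Bool.noConfusion (hz.symm.trans a2)
          · exact Bool.noConfusion (hz.symm.trans a3)
      exact hxy ((hin x hx).trans (hin y hy).symm)
    · omega

theorem cr_not {A : V → V → Prop} (hs : ∀ x y, A x y → A y x) (S : V → Bool) :
    cr A (fun x => !(S x)) = cr A S := by
  unfold cr
  refine Nat.card_congr (Equiv.ofBijective
    (fun p => ⟨(p.1.2, p.1.1), by simpa using p.2.2.1, by simpa using p.2.1, hs _ _ p.2.2.2⟩)
    ⟨?_, ?_⟩)
  · rintro ⟨⟨a, b⟩, h⟩ ⟨⟨c, d⟩, h'⟩ he
    simp only [Subtype.mk.injEq, Prod.mk.injEq] at he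
    simp only [Subtype.mk.injEq, Prod.mk.injEq]
    exact ⟨he.2, he.1⟩
  · rintro ⟨⟨a, b⟩, h1, h2, h3⟩
    exact ⟨⟨(b, a), by simpa using h2, by simpa using h1, hs _ _ h3⟩, rfl⟩

theorem connC [Finite V] {A : V → V → Prop} {t : Fin 5 → V} (hG : Good A t)
    (S : Fin 1 ⊕ (Fin 3 × V) → Bool)
    (h1 : ∃ x y, x ≠ y ∧ S x = true ∧ S y = true)
    (h2 : ∃ x y, x ≠ y ∧ S x = false ∧ S y = false) : 4 ≤ cr (AC A t) S := by
  rcases h0 : S (inl 0) with _ | _
  · exact connC0 hG S h0 h1 h2
  · have hs := comp_symm (R := Fin 1) (B := Fin 3) (t := t) (e := eC) hG.symm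
    rw [← cr_not (A := AC A t) hs S]
    refine connC0 hG _ (by simp [h0]) ?_ ?_
    · obtain ⟨x, y, hxy, hx, hy⟩ := h2
      exact ⟨x, y, hxy, by simp [hx], by simp [hy]⟩
    · obtain ⟨x, y, hxy, hx, hy⟩ := h1
      exact ⟨x, y, hxy, by simp [hx], by simp [hy]⟩

theorem comb3 : ∀ c0 c1 c2 : Fin 3, ∀ a0 a1 b0 b1, GT c0 a0 a1 b0 b1 → ∀ d0 d1, GT c1 b0 b1 d0 d1 →
    ¬ GT c2 d0 d1 a0 a1 := by
  decide +kernel

theorem uncolC [Finite V] {A : V → V → Prop} {t : Fin 5 → V} (hG : Good A t)
    (f : (Fin 1 ⊕ (Fin 3 × V)) → (Fin 1 ⊕ (Fin 3 × V)) → Fin 3)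
    (h1 : ∀ x y, AC A t x y → f x y = f y x)
    (h2 : ∀ x y z, AC A t x y → AC A t x z → y ≠ z → f x y ≠ f x z) : False := by
  have hT : ∀ a b, TAdj eC a b → comp A t eC (tau t a) (tau t b) :=
    fun a b h => Or.inr ⟨a, b, h, rfl, rfl⟩
  have hsy : ∀ a b, TAdj eC a b → f (tau t a) (tau t b) = f (tau t b) (tau t a) :=
    fun a b h => h1 _ _ (hT a b h)
  have B := block_typ (B := Fin 3) TOK_C hG f (fun k => k.elim0) h1 h2 (fun k => k.elim0)
  set φ : Nd (Fin 1) (Fin 3) → Nd (Fin 1) (Fin 3) → Fin 3 := fun a b => f (tau t a) (tau t b)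
    with hφ
  have B0 := B 0 ![φ (inl 0) (inr (0, 0)), φ (inr (2, 3)) (inr (0, 1)),
    φ (inr (2, 4)) (inr (0, 2)), φ (inr (0, 3)) (inr (1, 1)), φ (inr (0, 4)) (inr (1, 2))] (by
      intro p
      fin_cases p
      · exact Or.inl ⟨inl 0, by decide, hsy _ _ (by decide)⟩
      · exact Or.inl ⟨inr (2, 3), by decide, hsy _ _ (by decide)⟩
      · exact Or.inl ⟨inr (2, 4), by decide, hsy _ _ (by decide)⟩
      · exact Or.inl ⟨inr (1, 1), by decide, rfl⟩
      · exact Or.inl ⟨inr (1, 2), by decide, rfl⟩)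
  have B1 := B 1 ![φ (inl 0) (inr (1, 0)), φ (inr (0, 3)) (inr (1, 1)),
    φ (inr (0, 4)) (inr (1, 2)), φ (inr (1, 3)) (inr (2, 1)), φ (inr (1, 4)) (inr (2, 2))] (by
      intro p
      fin_cases p
      · exact Or.inl ⟨inl 0, by decide, hsy _ _ (by decide)⟩
      · exact Or.inl ⟨inr (0, 3), by decide, hsy _ _ (by decide)⟩
      · exact Or.inl ⟨inr (0, 4), by decide, hsy _ _ (by decide)⟩
      · exact Or.inl ⟨inr (2, 1), by decide, rfl⟩
      · exact Or.inl ⟨inr (2, 2), by decide, rfl⟩)
  have B2 := B 2 ![φ (inl 0) (inr (2, 0)), φ (inr (1, 3)) (inr (2, 1)),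
    φ (inr (1, 4)) (inr (2, 2)), φ (inr (2, 3)) (inr (0, 1)), φ (inr (2, 4)) (inr (0, 2))] (by
      intro p
      fin_cases p
      · exact Or.inl ⟨inl 0, by decide, hsy _ _ (by decide)⟩
      · exact Or.inl ⟨inr (1, 3), by decide, hsy _ _ (by decide)⟩
      · exact Or.inl ⟨inr (1, 4), by decide, hsy _ _ (by decide)⟩
      · exact Or.inl ⟨inr (0, 1), by decide, rfl⟩
      · exact Or.inl ⟨inr (0, 2), by decide, rfl⟩)
  exact comb3 _ _ _ _ _ _ _ B0 _ _ B1 B2

/-- the closed composite as a simple graph -/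
def GC (A : V → V → Prop) (t : Fin 5 → V) (hG : Good A t) : SimpleGraph (Fin 1 ⊕ (Fin 3 × V)) where
  Adj := AC A t
  symm := ⟨fun x y h => comp_symm hG.symm x y h⟩
  loopless := ⟨fun x h => comp_irrefl hG.tinj hG.irrefl TOK_C.noself TOK_C.noloop x h⟩

end Run7.h236.Rot
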