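import Pool.Agent.Run7.h236.Rot.A7

set_option autoImplicit false

/-! # The closed composites are rotation snarks -/

namespace Run7.h236.Rot

open Sum
open Pool.Agent.N366.RS (width width_pos Node IsChild tree leaf IsSnark IsRotationTSnark)

variable {V : Type} {A : V → V → Prop} {t : Fin 5 → V}

theorem GC_cubic [Finite V] (hG : Good A t) (v : Fin 1 ⊕ (Fin 3 × V)) :
    ((GC A t hG).neighborSet v).ncard = 3 := by
  have h := deg_comp TOK_C hG.tinj hG.deg v
  have h0 : Nat.card {k // tau t (oC k) = v} = 0 := by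
    rw [Nat.card_eq_zero]
    left
    exact ⟨fun k => k.1.elim0⟩
  rw [h0, add_zero] at h
  rw [← Nat.card_coe_set_eq]
  exact h

/-- a graph on `W` with the cut property is cyclically 4-edge-connected -/
theorem cyclic_of {W : Type} [Finite W] (G : SimpleGraph W)
    (h : ∀ S : W → Bool, (∃ x y, x ≠ y ∧ S x = true ∧ S y = true) →
      (∃ x y, x ≠ y ∧ S x = false ∧ S y = false) → 4 ≤ cr G.Adj S)
    (D : Set (Sym2 W)) (hD : D.ncard < 4) (u v : W)
    (c : (G.deleteEdges D).Walk u u) (d : (G.deleteEdges D).Walk v v)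
    (hc : c.IsCycle) (hd : d.IsCycle) : (G.deleteEdges D).Reachable u v := by
  classical
  by_contra hnr
  let b : W → Bool := fun w => decide ((G.deleteEdges D).Reachable u w)
  have hb1 : ∀ w, b w = true ↔ (G.deleteEdges D).Reachable u w := fun w => by simp [b]
  have hb2 : ∀ w, b w = false ↔ ¬ (G.deleteEdges D).Reachable u w := fun w => by simp [b]
  have h4 := h b ?_ ?_
  · -- the cut edges lie in D
    have : cr G.Adj b ≤ D.ncard := by
      unfold cr
      rw [← Nat.card_coe_set_eq]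
      have hfin : Finite D := Set.toFinite D
      let F : {p : W × W // b p.1 = true ∧ b p.2 = false ∧ G.Adj p.1 p.2} → D := fun p =>
        ⟨s(p.1.1, p.1.2), by
          by_contra hnD
          have h1 : (G.deleteEdges D).Adj p.1.1 p.1.2 :=
            SimpleGraph.deleteEdges_adj.mpr ⟨p.2.2.2, hnD⟩
          exact ((hb2 _).mp p.2.2.1) (((hb1 _).mp p.2.1).trans h1.reachable)⟩
      refine Nat.card_le_card_of_injective F ?_
      rintro ⟨⟨x, y⟩, h1, h2, h3⟩ ⟨⟨x', y'⟩, h1', h2', h3'⟩ he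
      simp only [F, Subtype.mk.injEq, Sym2.eq_iff] at he
      rcases he with ⟨rfl, rfl⟩ | ⟨rfl, rfl⟩
      · rfl
      · simp only at h1 h2'
        rw [h1] at h2'
        exact Bool.noConfusion h2'
    omega
  · have ha := c.adj_snd (fun h => hc.ne_nil (SimpleGraph.Walk.eq_nil_iff_nil.mpr h))
    exact ⟨u, c.snd, ha.ne, (hb1 _).mpr (SimpleGraph.Reachable.refl _), (hb1 _).mpr ha.reachable⟩
  · have ha := d.adj_snd (fun h => hd.ne_nil (SimpleGraph.Walk.eq_nil_iff_nil.mpr h))
    refine ⟨v, d.snd, ha.ne, (hb2 _).mpr hnr, (hb2 _).mpr fun h => hnr ?_⟩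
    exact h.trans ha.symm.reachable

/-- a graph without triangles and quadrilaterals has girth at least five -/
theorem girth_of {W : Type} (G : SimpleGraph W)
    (h3 : ∀ x y z, G.Adj x y → G.Adj y z → G.Adj z x → False)
    (h4 : ∀ x y z w, x ≠ z → y ≠ w → G.Adj x y → G.Adj y z → G.Adj z w → G.Adj w x → False)
    (v : W) (c : G.Walk v v) (hc : c.IsCycle) : 5 ≤ c.length := by
  have hl := hc.three_le_length
  by_contra hlt
  rcases c with _ | ⟨h1, c⟩
  · simp at hl
  rcases c with _ | ⟨h2, c⟩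
  · simp at hl
  rcases c with _ | ⟨h3', c⟩
  · simp at hl
  rcases c with _ | ⟨h4', c⟩
  · exact h3 _ _ _ h1 h2 h3'
  rcases c with _ | ⟨h5, c⟩
  · have hn := hc.support_nodup
    simp only [SimpleGraph.Walk.support_cons, SimpleGraph.Walk.support_nil, List.tail_cons,
      List.nodup_cons, List.mem_cons, List.not_mem_nil, or_false, not_or] at hn
    exact h4 _ _ _ _ (fun h => hn.2.1.2 h.symm) (fun h => hn.1.2.1 h) h1 h2 h3' h4'
  · simp only [SimpleGraph.Walk.length_cons] at hlt
    omega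

theorem GC_snark [Finite V] (hG : Good A t) : IsSnark (GC A t hG) where
  cubic := GC_cubic hG
  cyclic := fun D _ hD u v c d hc hd => cyclic_of (GC A t hG) (connC hG) D hD u v c d hc hd
  girth := girth_of (GC A t hG)
    (tri_comp TOK_C hG.tinj hG.symm hG.irrefl hG.hc hG.tri)
    (quad_comp TOK_C hG.tinj hG.symm hG.irrefl hG.hc hG.h12 hG.h34 hG.quad)
  uncolourable := by
    rintro ⟨f, hf⟩
    exact uncolC hG (fun x y => f s(x, y)) (fun x y _ => by rw [Sym2.eq_swap])
      (fun x y z hxy hxz hyz => hf x y z hxy hxz hyz)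

/-- labels of the vertices of the closed composite -/
def labC (lab : V → ℕ × ℕ) : Fin 1 ⊕ (Fin 3 × V) → ℕ × ℕ
  | inl _ => (0, 0)
  | inr (j, v) => ((lab v).1 + 1, (lab v).2 + j.val * 2 ^ (lab v).1)

theorem width_succ (d : ℕ) : width (d + 1) = 3 * 2 ^ d := by
  simp [width]

theorem width_zero : width 0 = 1 := by simp [width]

/-- the vertex of `T_k` of a vertex of the closed composite -/
def nodeC {k : ℕ} {lab : V → ℕ × ℕ} (hL : Lab A t k lab) (x : Fin 1 ⊕ (Fin 3 × V)) : Node k :=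
  ⟨labC lab x, by
    rcases x with i | ⟨j, v⟩
    · exact ⟨Nat.zero_le _, by rw [show (labC lab (inl i)) = (0, 0) from rfl]; rw [width_zero]; norm_num⟩
    · refine ⟨?_, ?_⟩
      · change (lab v).1 + 1 ≤ k
        exact hL.bd1 v
      · change (lab v).2 + j.val * 2 ^ (lab v).1 < width ((lab v).1 + 1)
        rw [width_succ]
        have := hL.bd2 v
        have : j.val * 2 ^ (lab v).1 ≤ 2 * 2 ^ (lab v).1 :=
          Nat.mul_le_mul_right _ (by have := j.2; omega)
        omega⟩

theorem nodeC_bij {k : ℕ} {lab : V → ℕ × ℕ} (hL : Lab A t k lab) :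
    Function.Bijective (nodeC hL) := by
  constructor
  · intro x y h
    have h1 : labC lab x = labC lab y := congrArg Subtype.val h
    rcases x with i | ⟨j, v⟩ <;> rcases y with i' | ⟨j', v'⟩
    · rw [Subsingleton.elim i i']
    · exact absurd (congrArg Prod.fst h1) (Nat.succ_ne_zero _).symm
    · exact absurd (congrArg Prod.fst h1) (Nat.succ_ne_zero _)
    · change ((lab v).1 + 1, (lab v).2 + j.val * 2 ^ (lab v).1) =
        ((lab v').1 + 1, (lab v').2 + j'.val * 2 ^ (lab v').1) at h1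
      rw [Prod.mk.injEq] at h1
      obtain ⟨h1, h2⟩ := h1
      have h1' : (lab v).1 = (lab v').1 := by omega
      rw [h1'] at h2
      have b1 := hL.bd2 v
      have b2 := hL.bd2 v'
      rw [h1'] at b1
      obtain ⟨h3, h4⟩ := digit b1 b2 h2
      rw [hL.inj (Prod.ext h1' h4), Fin.ext h3]
  · rintro ⟨⟨d, c⟩, hd, hc⟩
    simp only at hd hc
    rcases d with _ | d
    · refine ⟨inl 0, Subtype.ext ?_⟩
      rw [width_zero] at hc
      have : c = 0 := by omega
      subst this
      rfl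
    · rw [width_succ] at hc
      have hm : 0 < 2 ^ d := by positivity
      have hj : c / 2 ^ d < 3 := by
        rw [Nat.div_lt_iff_lt_mul hm]
        exact hc
      obtain ⟨v, hv⟩ := hL.surj d (c % 2 ^ d) (by omega) (Nat.mod_lt _ hm)
      refine ⟨inr (⟨c / 2 ^ d, hj⟩, v), Subtype.ext ?_⟩
      change ((lab v).1 + 1, (lab v).2 + c / 2 ^ d * 2 ^ (lab v).1) = _
      rw [hv]
      refine Prod.ext rfl ?_
      change c % 2 ^ d + c / 2 ^ d * 2 ^ d = c
      rw [mul_comm]
      exact Nat.mod_add_div c (2 ^ d)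

/-- the rotation -/
def rotC : Fin 1 ⊕ (Fin 3 × V) → Fin 1 ⊕ (Fin 3 × V)
  | inl i => inl i
  | inr (j, v) => inr (j + 1, v)

/-- the rotation on template nodes -/
def rotN : Nd (Fin 1) (Fin 3) → Nd (Fin 1) (Fin 3)
  | inl i => inl i
  | inr (j, p) => inr (j + 1, p)

theorem rotN_adj : ∀ a b, TAdj eC a b → TAdj eC (rotN a) (rotN b) := by decide +kernel

theorem rot_tau (a : Nd (Fin 1) (Fin 3)) : rotC (tau t a) = tau t (rotN a) := by
  rcases a with i | ⟨j, p⟩ <;> rfl

theorem rotC_adj (x y : Fin 1 ⊕ (Fin 3 × V)) (h : AC A t x y) : AC A t (rotC x) (rotC y) := by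
  rcases h with ⟨j, v, w, rfl, rfl, h⟩ | ⟨a, b, h, rfl, rfl⟩
  · exact Or.inl ⟨j + 1, v, w, rfl, rfl, h⟩
  · exact Or.inr ⟨rotN a, rotN b, rotN_adj a b h, rot_tau a, rot_tau b⟩

theorem child_adj {k : ℕ} {lab : V → ℕ × ℕ} (hL : Lab A t k lab) (x y : Fin 1 ⊕ (Fin 3 × V))
    (h : IsChild (labC lab x) (labC lab y)) : AC A t x y := by
  obtain ⟨h1, h2⟩ := h
  rcases x with i | ⟨j, v⟩ <;> rcases y with i' | ⟨j', v'⟩
  · exact absurd h1 (by simp [labC])
  · change (lab v').1 + 1 = 0 + 1 at h1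
    have hd : (lab v').1 = 0 := by omega
    have hb := hL.bd2 v'
    rw [hd] at hb
    have hc : (lab v').2 = 0 := by simpa using hb
    have hv : v' = t 0 := hL.inj (by rw [hL.root]; exact Prod.ext hd hc)
    subst hv
    have key : ∀ (i : Fin 1) (j : Fin 3), TAdj eC (inl i) (inr (j, 0)) := by decide
    exact Or.inr ⟨inl i, inr (j', 0), key i j', rfl, rfl⟩
  · exact absurd h1 (by simp [labC])
  · change (lab v').1 + 1 = (lab v).1 + 1 + 1 at h1
    change (lab v).1 + 1 = 0 ∨ (lab v).2 + j.val * 2 ^ (lab v).1 =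
      ((lab v').2 + j'.val * 2 ^ (lab v').1) / 2 at h2
    rcases h2 with h2 | h2
    · omega
    have hd : (lab v').1 = (lab v).1 + 1 := by omega
    have b := hL.bd2 v'
    rw [hd] at h2 b
    obtain ⟨h3, h4⟩ := child_block (hL.bd2 v) b h2
    exact Or.inl ⟨j, v, v', rfl, by rw [Fin.ext h3], hL.tree v v' hd h4⟩

theorem mod_rot (m a c : ℕ) (j : Fin 3) (hc : c < m) (h : c + j.val * m = a % (3 * m)) :
    c + (j + 1 : Fin 3).val * m = (a + m) % (3 * m) := by
  have hm : 0 < m := by omega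
  rw [Nat.add_mod, ← h, Nat.mod_eq_of_lt (show m < 3 * m by omega)]
  fin_cases j
  · change c + 1 * m = (c + 0 * m + m) % (3 * m)
    rw [Nat.mod_eq_of_lt (by omega)]
    omega
  · change c + 2 * m = (c + 1 * m + m) % (3 * m)
    rw [Nat.mod_eq_of_lt (by omega)]
    omega
  · change c + 0 * m = (c + 2 * m + m) % (3 * m)
    rw [show c + 2 * m + m = c + 3 * m by ring, Nat.add_mod_right, Nat.mod_eq_of_lt (by omega)]
    omega

theorem GC_rot [Finite V] (hG : Good A t) {k : ℕ} {lab : V → ℕ × ℕ} (hL : Lab A t k lab)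
    (hk : 2 ≤ k) : IsRotationTSnark k (GC A t hG) := by
  let ψ : (Fin 1 ⊕ (Fin 3 × V)) ≃ Node k := Equiv.ofBijective (nodeC hL) (nodeC_bij hL)
  have hψ : ∀ x, (ψ x).1 = labC lab x := fun x => rfl
  refine ⟨hk, GC_snark hG, ψ.symm, ?_, ?_⟩
  · intro p q h
    obtain ⟨x, rfl⟩ := ψ.surjective p
    obtain ⟨y, rfl⟩ := ψ.surjective q
    rw [Equiv.symm_apply_apply, Equiv.symm_apply_apply]
    rcases h with h | h
    · exact child_adj hL x y h
    · exact comp_symm hG.symm _ _ (child_adj hL y x h)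
  · have hrot : ∀ a, ψ.symm (leaf k (a + width k / 3)) = rotC (ψ.symm (leaf k a)) := by
      intro a
      rw [Equiv.symm_apply_eq]
      obtain ⟨x, hx⟩ := ψ.surjective (leaf k a)
      rw [← hx, Equiv.symm_apply_apply]
      obtain ⟨d, rfl⟩ : ∃ d, k = d + 1 := ⟨k - 1, by omega⟩
      have hx1 : labC lab x = (d + 1, a % width (d + 1)) := by
        rw [← hψ, hx]
        rfl
      apply Subtype.ext
      rw [hψ]
      change (d + 1, (a + width (d + 1) / 3) % width (d + 1)) = _
      rw [width_succ] at hx1 ⊢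
      rw [Nat.mul_div_cancel_left _ (by norm_num)]
      rcases x with i | ⟨j, v⟩
      · exact absurd (congrArg Prod.fst hx1) (Nat.succ_ne_zero _).symm
      · change ((lab v).1 + 1, (lab v).2 + j.val * 2 ^ (lab v).1) = _ at hx1
        rw [Prod.mk.injEq] at hx1
        obtain ⟨e1, e2⟩ := hx1
        have e1' : (lab v).1 = d := by omega
        have b := hL.bd2 v
        rw [e1'] at e2 b
        change _ = ((lab v).1 + 1, (lab v).2 + (j + 1 : Fin 3).val * 2 ^ (lab v).1)
        rw [e1', mod_rot _ _ _ j b e2]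
    intro a b h
    rw [hrot, hrot]
    exact rotC_adj _ _ h

end Run7.h236.Rot
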